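import Pool.Agent.NM72.MassGen

set_option autoImplicit false

/-! V3: the killed set and the energy argument for weights that start from `thr`. -/

namespace NM72

open Finset Classical NM70
open NM71 (cc liv c1_mem_liv c1_cc_cons c2_cc_nonneg c2_sum_halves_succ c2d c2d_eq c2_sum_nbr
  c2d_le_three c2d_le_two c2d_nonneg c2_cs c2_P_sq)

variable {V : Type*} [Fintype V] {G M : SimpleGraph V}

/-- The half paths of small load. -/
noncomputable def Ls (G M : SimpleGraph V) (m : ℕ) (z : V → ℝ) (x : V) : Finset (List V) :=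
  (HH G M m x).filter fun q => cc z q < 1 / 2

/-- The integer weight of the half paths of small load. -/
noncomputable def LL (G M : SimpleGraph V) (m : ℕ) (z : V → ℝ) (x : V) : ℕ :=
  ∑ q ∈ Ls G M m z x, wt m q

/-- The comparison constant. -/
def AA3 (m : ℕ) : ℕ := 25 * (m + 1)

/-- A vertex is good if the half paths of small load carry a substantial part of the weight. -/
def Gd (G M : SimpleGraph V) (m : ℕ) (z : V → ℝ) (x : V) : Prop :=
  Phi G M m x ≤ AA3 m * LL G M m z x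

/-- The killed vertices. -/
def KK3 (G M : SimpleGraph V) (m : ℕ) (z : V → ℝ) (x : V) : Prop :=
  ¬ Gd G M m z x ∨ ∃ y, G.Adj x y ∧ ¬ M.Adj x y ∧ Gd G M m z y ∧ LL G M m z x ≤ LL G M m z y

/-- The unblocked paths. -/
noncomputable def unb (G M : SimpleGraph V) (m : ℕ) (z : V → ℝ) : Finset (PT V) :=
  (augs G M m).filter fun p => cc z p.2.1 + cc z p.2.2 < 1

theorem n4_indep (m : ℕ) (z : V → ℝ) (x y : V) (hxy : G.Adj x y) (hM : ¬ M.Adj x y)
    (hx : ¬ KK3 G M m z x) (hy : ¬ KK3 G M m z y) : False := by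
  unfold KK3 at hx hy
  push Not at hx hy
  rcases le_total (LL G M m z x) (LL G M m z y) with h | h
  · exact absurd h (not_le.2 (hx.2 y hxy hM hy.1))
  · exact absurd h (not_le.2 (hy.2 x hxy.symm (fun h' => hM h'.symm) hx.1))

theorem n4_LL_le (m : ℕ) (z : V → ℝ) (x : V) : LL G M m z x ≤ Phi G M m x := by
  unfold LL Ls Phi
  exact sum_le_sum_of_subset (filter_subset _ _)

theorem n4_LL_eq (m : ℕ) (z : V → ℝ) (x : V) :
    LL G M m z x = ∑ i ∈ range (m + 1), h4_w m i * (liv G M z i x).card := by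
  unfold LL Ls
  rw [h4_sum_HH]
  rfl

theorem n4_w_ge {m i : ℕ} (hi : i ≤ m) : (2 : ℝ) ^ m / 2 ^ i ≤ (h4_w m i : ℝ) := by
  have h1 : (2 : ℝ) ^ m / 2 ^ i = 2 ^ (m - i) := by
    rw [div_eq_iff (by positivity), ← pow_add, Nat.sub_add_cancel hi]
  rw [h1]
  unfold h4_w
  split_ifs with h
  · subst h
    push_cast
    rw [Nat.sub_zero]
    have h2 : (0 : ℝ) < 2 ^ m := by positivity
    have h3 : (0 : ℝ) ≤ (m : ℝ) := by positivity
    nlinarith
  · push_cast
    exact le_rfl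

theorem n4_mass_le (m : ℕ) (z : V → ℝ) (x : V) :
    2 ^ m * ∑ i ∈ range (m + 1), NM71.kf G M z i x ≤ (LL G M m z x : ℝ) := by
  rw [n4_LL_eq, mul_sum]
  push_cast
  refine sum_le_sum fun i hi => ?_
  rw [mem_range, Nat.lt_succ_iff] at hi
  unfold NM71.kf
  have h1 := n4_w_ge hi
  calc (2 : ℝ) ^ m * (((liv G M z i x).card : ℝ) / 2 ^ i) =
        (2 : ℝ) ^ m / 2 ^ i * ((liv G M z i x).card : ℝ) := by ring
    _ ≤ _ := mul_le_mul_of_nonneg_right h1 (by positivity)

/-! ### The total mass -/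

theorem n4_A_zero : NM71.c2A G M (fun _ => 0) 0 = ((unm M).card : ℝ) := by
  unfold NM71.c2A NM71.kf
  rw [unm, card_filter]
  push_cast
  refine sum_congr rfl fun x _ => ?_
  by_cases h : Unm M x
  · rw [if_pos h]
    have h1 : liv G M (fun _ => 0) 0 x = {[x]} := by
      ext q
      rw [c1_mem_liv, mem_halves_zero, mem_singleton]
      constructor
      · exact fun h => h.1.2
      · rintro rfl
        exact ⟨⟨h, rfl⟩, by simp [cc]⟩
    rw [h1, card_singleton]
    norm_num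
  · rw [if_neg h]
    have h1 : liv G M (fun _ => 0) 0 x = ∅ := by
      refine eq_empty_of_forall_notMem fun q hq => ?_
      exact h (mem_halves_zero.1 (c1_mem_liv.1 hq).1).1
    rw [h1]
    simp

theorem n4_kf_zero (i : ℕ) (x : V) : NM71.kf G M (fun _ => 0) i x = fr G M i x := by
  have h1 : liv G M (fun _ => 0) i x = halves G M i x := by
    ext q
    rw [c1_mem_liv]
    constructor
    · exact fun h => h.1
    · intro h
      refine ⟨h, ?_⟩
      unfold cc
      simp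
  unfold NM71.kf
  rw [h1, card_halves]
  field_simp

theorem n4_A_step (hc : Cubic G) (hM : IsMat G M) (i : ℕ) :
    NM71.c2A G M (fun _ => 0) (i + 1) ≤ (if i = 0 then 3 / 2 else 1) *
      NM71.c2A G M (fun _ => 0) i := by
  have hz : ∀ v : V, (0 : ℝ) ≤ (fun _ => (0 : ℝ)) v := fun _ => le_rfl
  have h1 : NM71.c2A G M (fun _ => 0) (i + 1) ≤
      NM71.c2E G M (fun _ => 0) i (fun _ _ _ => (1 : ℝ)) / 2 ^ (i + 1) := by
    unfold NM71.c2A NM71.kf
    rw [← sum_div]
    refine div_le_div_of_nonneg_right ?_ (by positivity)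
    have h2 : ∑ w : V, ((liv G M (fun _ => 0) (i + 1) w).card : ℝ) =
        ∑ w : V, ∑ q ∈ liv G M (fun _ => 0) (i + 1) w, (1 : ℝ) := by
      refine sum_congr rfl fun w _ => ?_
      rw [sum_const, nsmul_one]
    rw [h2, NM71.c2_exch hz i (fun _ => (1 : ℝ))]
    refine NM71.c2E_le fun x y q => ?_
    split_ifs <;> norm_num
  refine h1.trans ?_
  rw [NM71.c2E_const (fun _ => 0) i (fun _ => (1 : ℝ))]
  unfold NM71.c2A
  rw [mul_sum, sum_div]
  refine sum_le_sum fun w _ => ?_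
  rw [sum_const, one_mul, nsmul_eq_mul]
  unfold NM71.kf
  have key : ∀ t : ℝ, c2d G M w ≤ 2 * t →
      ((liv G M (fun _ => 0) i w).card : ℝ) * c2d G M w / 2 ^ (i + 1) ≤
        t * (((liv G M (fun _ => 0) i w).card : ℝ) / 2 ^ i) := by
    intro t ht
    have h3 : t * (((liv G M (fun _ => 0) i w).card : ℝ) / 2 ^ i) =
        ((liv G M (fun _ => 0) i w).card : ℝ) * (2 * t) / 2 ^ (i + 1) := by
      rw [pow_succ]
      field_simp
    rw [h3]
    refine div_le_div_of_nonneg_right ?_ (by positivity)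
    exact mul_le_mul_of_nonneg_left ht (by positivity)
  split_ifs with h
  · refine key _ ?_
    have := c2d_le_three hc hM w
    linarith
  · by_cases hne : (liv G M (fun _ => 0) i w).Nonempty
    · obtain ⟨q, hq⟩ := hne
      obtain ⟨j, rfl⟩ := Nat.exists_eq_succ_of_ne_zero h
      obtain ⟨p, -, -, hp, -⟩ := mem_halves_succ.1 (c1_mem_liv.1 hq).1
      refine key _ ?_
      have := c2d_le_two hc hM hp
      linarith
    · rw [not_nonempty_iff_eq_empty] at hne
      rw [hne]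
      simp

theorem n4_A_le (hc : Cubic G) (hM : IsMat G M) (i : ℕ) :
    NM71.c2A G M (fun _ => 0) (i + 1) ≤ 3 / 2 * ((unm M).card : ℝ) := by
  induction i with
  | zero =>
    have h := n4_A_step hc hM 0
    rw [if_pos rfl, n4_A_zero] at h
    exact h
  | succ i ih =>
    have h := n4_A_step hc hM (i + 1)
    rw [if_neg (Nat.succ_ne_zero i), one_mul] at h
    exact h.trans ih

theorem n4_sum_FF (hc : Cubic G) (hM : IsMat G M) (m : ℕ) :
    ∑ x, FF G M m x ≤ 5 / 2 * (m + 1) * ((unm M).card : ℝ) := by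
  have h0 : ∑ x, fr G M 0 x = ((unm M).card : ℝ) := by
    rw [← n4_A_zero (G := G)]
    unfold NM71.c2A
    exact sum_congr rfl fun x _ => (n4_kf_zero 0 x).symm
  have h1 : ∀ i, ∑ x, fr G M (i + 1) x ≤ 3 / 2 * ((unm M).card : ℝ) := by
    intro i
    refine le_trans (le_of_eq ?_) (n4_A_le hc hM i)
    unfold NM71.c2A
    exact sum_congr rfl fun x _ => (n4_kf_zero (i + 1) x).symm
  unfold FF
  rw [sum_add_distrib, ← mul_sum, h0, sum_comm]
  have h2 : ∑ i ∈ range m, ∑ x, fr G M (i + 1) x ≤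
      ∑ i ∈ range m, 3 / 2 * ((unm M).card : ℝ) := sum_le_sum fun i _ => h1 i
  rw [sum_const, card_range, nsmul_eq_mul] at h2
  have h3 : (0 : ℝ) ≤ ((unm M).card : ℝ) := by positivity
  nlinarith

theorem n4_sum_Phi (hc : Cubic G) (hM : IsMat G M) (m : ℕ) :
    ∑ x, (Phi G M m x : ℝ) ≤ 2 ^ m * (5 / 2 * (m + 1) * ((unm M).card : ℝ)) := by
  have h1 : ∑ x, (Phi G M m x : ℝ) = 2 ^ m * ∑ x, FF G M m x := by
    rw [mul_sum]
    exact sum_congr rfl fun x _ => Phi_eq m x
  rw [h1]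
  exact mul_le_mul_of_nonneg_left (n4_sum_FF hc hM m) (by positivity)

/-! ### The error terms -/

/-- The weight of the unblocked paths over a pair. -/
noncomputable def ub (G M : SimpleGraph V) (m : ℕ) (z : V → ℝ) (x y : V) : ℝ :=
  if G.Adj x y ∧ ¬ M.Adj x y then ∑ q ∈ HH G M m x ×ˢ HH G M m y,
    (if cc z q.1 + cc z q.2 < 1 then (thr G M m ((x, y), q) : ℝ) else 0) else 0

theorem n4_ub_nonneg (m : ℕ) (z : V → ℝ) (x y : V) : 0 ≤ ub G M m z x y := by
  unfold ub
  split_ifs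
  · refine sum_nonneg fun q _ => ?_
    split_ifs
    · positivity
    · exact le_rfl
  · exact le_rfl

theorem n4_sum_ub (m : ℕ) (z : V → ℝ) :
    ∑ x, ∑ y, ub G M m z x y = ∑ p ∈ unb G M m z, (thr G M m p : ℝ) := by
  unfold unb
  rw [sum_filter, h4_sum_augs, Fintype.sum_prod_type]
  rfl

theorem n4_ub_ge (m : ℕ) (z : V → ℝ) {x y : V} (hxy : G.Adj x y) (hM : ¬ M.Adj x y) :
    (LL G M m z x : ℝ) * (LL G M m z y : ℝ) *
      ((BB m / (2 ^ m * max (Phi G M m x) (Phi G M m y)) : ℕ) : ℝ) ≤ ub G M m z x y := by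
  unfold ub
  rw [if_pos ⟨hxy, hM⟩]
  have h1 : (LL G M m z x : ℝ) * (LL G M m z y : ℝ) *
      ((BB m / (2 ^ m * max (Phi G M m x) (Phi G M m y)) : ℕ) : ℝ) =
      ∑ q ∈ Ls G M m z x ×ˢ Ls G M m z y, (thr G M m ((x, y), q) : ℝ) := by
    unfold LL
    rw [sum_product, Nat.cast_sum, Nat.cast_sum, sum_mul_sum, sum_mul]
    refine sum_congr rfl fun q _ => ?_
    rw [sum_mul]
    refine sum_congr rfl fun q' _ => ?_
    rw [thr, Nat.cast_mul, Nat.cast_mul]
  rw [h1]
  have h2 : ∑ q ∈ Ls G M m z x ×ˢ Ls G M m z y, (thr G M m ((x, y), q) : ℝ) =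
      ∑ q ∈ Ls G M m z x ×ˢ Ls G M m z y,
        (if cc z q.1 + cc z q.2 < 1 then (thr G M m ((x, y), q) : ℝ) else 0) := by
    refine sum_congr rfl fun q hq => ?_
    rw [mem_product, Ls, Ls, mem_filter, mem_filter] at hq
    rw [if_pos]
    linarith [hq.1.2, hq.2.2]
  rw [h2]
  refine sum_le_sum_of_subset_of_nonneg ?_ fun q _ _ => ?_
  · exact product_subset_product (filter_subset _ _) (filter_subset _ _)
  · split_ifs
    · positivity
    · exact le_rfl

/-- A good killed vertex is paid by unblocked paths. -/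
theorem n4_good_killed (hc : Cubic G) (hM : IsMat G M) (m : ℕ) (z : V → ℝ) {x : V}
    (hg : Gd G M m z x) (hk : KK3 G M m z x) :
    (BB m : ℝ) * (LL G M m z x : ℝ) ≤ (AA3 m : ℝ) * 2 ^ m * ∑ y, ub G M m z x y := by
  rcases hk with hk | ⟨y, hxy, hMxy, hgy, hle⟩
  · exact absurd hg hk
  · have h1 : ub G M m z x y ≤ ∑ y, ub G M m z x y :=
      single_le_sum (f := fun y => ub G M m z x y) (fun y _ => n4_ub_nonneg m z x y) (mem_univ y)
    have h2 := n4_ub_ge (G := G) (M := M) m z hxy hMxy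
    rcases Nat.eq_zero_or_pos (LL G M m z x) with h0 | h0
    · rw [h0, Nat.cast_zero, mul_zero]
      have h3 : 0 ≤ ∑ y, ub G M m z x y := sum_nonneg fun y _ => n4_ub_nonneg m z x y
      positivity
    · have hP : 0 < Phi G M m x := lt_of_lt_of_le h0 (n4_LL_le m z x)
      have hmax : 0 < max (Phi G M m x) (Phi G M m y) := lt_max_of_lt_left hP
      have hd := h4_dvd hc hM m x y hmax
      have h3 := Nat.mul_div_cancel' hd
      set Q := BB m / (2 ^ m * max (Phi G M m x) (Phi G M m y)) with hQ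
      have h4 : max (Phi G M m x) (Phi G M m y) ≤ AA3 m * LL G M m z y := by
        refine max_le ?_ hgy
        exact le_trans hg (Nat.mul_le_mul_left _ hle)
      have h5 : BB m * LL G M m z x ≤
          AA3 m * 2 ^ m * (LL G M m z x * LL G M m z y * Q) := by
        calc BB m * LL G M m z x
            = 2 ^ m * max (Phi G M m x) (Phi G M m y) * Q * LL G M m z x := by rw [h3]
          _ ≤ 2 ^ m * (AA3 m * LL G M m z y) * Q * LL G M m z x :=
              Nat.mul_le_mul_right _ (Nat.mul_le_mul_right _ (Nat.mul_le_mul_left _ h4))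
          _ = AA3 m * 2 ^ m * (LL G M m z x * LL G M m z y * Q) := by ring
      have h6 : (BB m : ℝ) * (LL G M m z x : ℝ) ≤
          (AA3 m : ℝ) * 2 ^ m * ((LL G M m z x : ℝ) * (LL G M m z y : ℝ) * (Q : ℝ)) := by
        exact_mod_cast h5
      refine h6.trans ?_
      refine mul_le_mul_of_nonneg_left (h2.trans h1) (by positivity)

/-- The bound for the first error term. -/
theorem n4_e1 (hc : Cubic G) (hM : IsMat G M) (m : ℕ) (z : V → ℝ)
    (hE : ∑ p ∈ unb G M m z, (thr G M m p : ℝ) ≤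
      1 / (250 * (m + 1)) * BB m * ((unm M).card : ℝ)) :
    ∑ x ∈ univ.filter (KK3 G M m z), ∑ i ∈ range (m + 1), NM71.kf G M z i x ≤
      1 / 5 * ((unm M).card : ℝ) := by
  have hBB : (0 : ℝ) < BB m := by exact_mod_cast Nat.factorial_pos _
  have h2m : (0 : ℝ) < 2 ^ m := by positivity
  have hA : (0 : ℝ) < (AA3 m : ℝ) := by
    have : 0 < AA3 m := by unfold AA3; omega
    exact_mod_cast this
  have hAv : (AA3 m : ℝ) = 25 * (m + 1) := by unfold AA3; push_cast; ring
  set U : ℝ := ((unm M).card : ℝ) with hU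
  have hm1 : (0 : ℝ) < (m : ℝ) + 1 := by positivity
  -- pointwise bound
  have h1 : ∀ x ∈ univ.filter (KK3 G M m z), 2 ^ m * ∑ i ∈ range (m + 1), NM71.kf G M z i x ≤
      (Phi G M m x : ℝ) / AA3 m + (AA3 m : ℝ) * 2 ^ m / BB m * ∑ y, ub G M m z x y := by
    intro x hx
    rw [mem_filter] at hx
    have hs0 : 0 ≤ ∑ y, ub G M m z x y := sum_nonneg fun y _ => n4_ub_nonneg m z x y
    refine (n4_mass_le m z x).trans ?_
    by_cases hg : Gd G M m z x
    · have h2 := n4_good_killed hc hM m z hg hx.2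
      have h3 : (LL G M m z x : ℝ) ≤ (AA3 m : ℝ) * 2 ^ m / BB m * ∑ y, ub G M m z x y := by
        rw [div_mul_eq_mul_div, le_div_iff₀ hBB]
        linarith
      have h4 : 0 ≤ (Phi G M m x : ℝ) / AA3 m := by positivity
      linarith
    · have h3 : (LL G M m z x : ℝ) ≤ (Phi G M m x : ℝ) / AA3 m := by
        rw [le_div_iff₀ hA]
        unfold Gd at hg
        push Not at hg
        have : AA3 m * LL G M m z x ≤ Phi G M m x := hg.le
        have h5 : (AA3 m : ℝ) * (LL G M m z x : ℝ) ≤ (Phi G M m x : ℝ) := by exact_mod_cast this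
        linarith
      have h4 : 0 ≤ (AA3 m : ℝ) * 2 ^ m / BB m * ∑ y, ub G M m z x y := by positivity
      linarith
  have h2 : 2 ^ m * ∑ x ∈ univ.filter (KK3 G M m z), ∑ i ∈ range (m + 1), NM71.kf G M z i x ≤
      (∑ x, (Phi G M m x : ℝ)) / AA3 m +
        (AA3 m : ℝ) * 2 ^ m / BB m * ∑ x, ∑ y, ub G M m z x y := by
    rw [mul_sum]
    refine (sum_le_sum h1).trans ?_
    rw [sum_add_distrib, ← sum_div, ← mul_sum]
    refine add_le_add ?_ ?_
    · refine div_le_div_of_nonneg_right ?_ hA.le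
      exact sum_le_sum_of_subset_of_nonneg (subset_univ _) fun x _ _ => by positivity
    · refine mul_le_mul_of_nonneg_left ?_ (by positivity)
      exact sum_le_sum_of_subset_of_nonneg (subset_univ _) fun x _ _ =>
        sum_nonneg fun y _ => n4_ub_nonneg m z x y
  rw [n4_sum_ub] at h2
  have h3 : (∑ x, (Phi G M m x : ℝ)) / AA3 m ≤ 2 ^ m * (1 / 10 * U) := by
    rw [div_le_iff₀ hA, hAv]
    refine (n4_sum_Phi hc hM m).trans (le_of_eq ?_)
    rw [← hU]
    ring
  have h4 : (AA3 m : ℝ) * 2 ^ m / BB m * ∑ p ∈ unb G M m z, (thr G M m p : ℝ) ≤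
      2 ^ m * (1 / 10 * U) := by
    calc (AA3 m : ℝ) * 2 ^ m / BB m * ∑ p ∈ unb G M m z, (thr G M m p : ℝ)
        ≤ (AA3 m : ℝ) * 2 ^ m / BB m * (1 / (250 * (m + 1)) * BB m * U) :=
          mul_le_mul_of_nonneg_left hE (by positivity)
      _ = 2 ^ m * (1 / 10 * U) := by
          rw [hAv]
          field_simp
          ring
  have h5 : 2 ^ m * ∑ x ∈ univ.filter (KK3 G M m z), ∑ i ∈ range (m + 1), NM71.kf G M z i x ≤
      2 ^ m * (1 / 5 * U) := by
    refine h2.trans ((add_le_add h3 h4).trans (le_of_eq ?_))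
    ring
  exact le_of_mul_le_mul_left h5 h2m

omit [Fintype V] in
theorem n4_wt_one (m : ℕ) (y : V) : wt m [y] = (m + 1) * 2 ^ m := by
  have h : [y].length = 1 := rfl
  unfold wt
  rw [if_pos h]

/-- An unmatched neighbour with small load gives unblocked paths. -/
theorem n4_unm_nbr (hc : Cubic G) (hM : IsMat G M) (m : ℕ) (z : V → ℝ) {w y : V}
    (hwy : G.Adj w y) (hy : Unm M y) (hzy : z y < 1 / 2) :
    (BB m : ℝ) * (LL G M m z w : ℝ) ≤ 2 ^ m * ub G M m z w y := by
  have hMwy : ¬ M.Adj w y := fun h => hy w h.symm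
  have hPy : Phi G M m y = (m + 1) * 2 ^ m := by
    have h1 := Phi_eq (G := G) (M := M) m y
    rw [FF_unm hy] at h1
    have h2 : (Phi G M m y : ℝ) = (((m + 1) * 2 ^ m : ℕ) : ℝ) := by
      rw [h1]
      push_cast
      ring
    exact_mod_cast h2
  have hmax : max (Phi G M m w) (Phi G M m y) = (m + 1) * 2 ^ m := by
    rw [hPy]
    exact max_eq_right (h4_Phi_le hc hM m w)
  have hpos : 0 < max (Phi G M m w) (Phi G M m y) := by
    rw [hmax]
    positivity
  have hLy : (m + 1) * 2 ^ m ≤ LL G M m z y := by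
    rw [← n4_wt_one m y]
    unfold LL
    refine single_le_sum (f := fun q => wt m q) (fun _ _ => Nat.zero_le _) ?_
    rw [Ls, mem_filter]
    refine ⟨mem_HH.2 ⟨0, Nat.zero_le _, mem_halves_zero.2 ⟨hy, rfl⟩⟩, ?_⟩
    unfold cc
    simpa using hzy
  have hd := h4_dvd hc hM m w y hpos
  have h3 := Nat.mul_div_cancel' hd
  have h2 := n4_ub_ge (G := G) (M := M) m z hwy hMwy
  set Q := BB m / (2 ^ m * max (Phi G M m w) (Phi G M m y)) with hQ
  rw [hmax] at h3
  have h5 : BB m * LL G M m z w ≤ 2 ^ m * (LL G M m z w * LL G M m z y * Q) := by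
    calc BB m * LL G M m z w = 2 ^ m * ((m + 1) * 2 ^ m) * Q * LL G M m z w := by rw [h3]
      _ ≤ 2 ^ m * LL G M m z y * Q * LL G M m z w :=
          Nat.mul_le_mul_right _ (Nat.mul_le_mul_right _ (Nat.mul_le_mul_left _ hLy))
      _ = _ := by ring
  have h6 : (BB m : ℝ) * (LL G M m z w : ℝ) ≤
      2 ^ m * ((LL G M m z w : ℝ) * (LL G M m z y : ℝ) * (Q : ℝ)) := by exact_mod_cast h5
  exact h6.trans (mul_le_mul_of_nonneg_left h2 (by positivity))

/-- The bound for the second error term. -/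
theorem n4_e2 (hc : Cubic G) (hM : IsMat G M) (m : ℕ) (z : V → ℝ)
    (hE : ∑ p ∈ unb G M m z, (thr G M m p : ℝ) ≤
      1 / (250 * (m + 1)) * BB m * ((unm M).card : ℝ)) :
    ∑ i ∈ range m, ∑ w : V, NM71.kf G M z i w * u2 G M z w ≤
      2 * (1 / 500 * ((unm M).card : ℝ)) := by
  have hBB : (0 : ℝ) < BB m := by exact_mod_cast Nat.factorial_pos _
  have h2m : (0 : ℝ) < 2 ^ m := by positivity
  have h1 : ∀ w : V, 2 ^ m * (BB m : ℝ) * (∑ i ∈ range m, NM71.kf G M z i w * u2 G M z w) ≤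
      2 ^ m * ∑ y, ub G M m z w y := by
    intro w
    have h2 : ∑ i ∈ range m, NM71.kf G M z i w ≤ ∑ i ∈ range (m + 1), NM71.kf G M z i w := by
      rw [sum_range_succ]
      have := NM71.kf_nonneg (G := G) (M := M) z m w
      linarith
    have h3 := n4_mass_le (G := G) (M := M) m z w
    have h4 : (0 : ℝ) ≤ u2 G M z w := n3_u2_nonneg z w
    rw [← sum_mul]
    have h5 : 2 ^ m * ∑ i ∈ range m, NM71.kf G M z i w ≤ (LL G M m z w : ℝ) :=
      (mul_le_mul_of_nonneg_left h2 h2m.le).trans h3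
    calc 2 ^ m * (BB m : ℝ) * ((∑ i ∈ range m, NM71.kf G M z i w) * u2 G M z w)
        = (BB m : ℝ) * (2 ^ m * ∑ i ∈ range m, NM71.kf G M z i w) * u2 G M z w := by ring
      _ ≤ (BB m : ℝ) * (LL G M m z w : ℝ) * u2 G M z w := by
          refine mul_le_mul_of_nonneg_right ?_ h4
          exact mul_le_mul_of_nonneg_left h5 hBB.le
      _ ≤ 2 ^ m * ∑ y, ub G M m z w y := by
          unfold u2
          rw [mul_sum, mul_sum]
          refine sum_le_sum fun y _ => ?_
          have h6 := n4_ub_nonneg (G := G) (M := M) m z w y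
          by_cases h7 : G.Adj w y
          · rw [if_pos h7]
            by_cases h8 : Unm M y ∧ z y < 1 / 2
            · rw [if_pos h8, mul_one]
              exact n4_unm_nbr hc hM m z h7 h8.1 h8.2
            · rw [if_neg h8, mul_zero]
              positivity
          · rw [if_neg h7, mul_zero]
            positivity
  have h2 : 2 ^ m * (BB m : ℝ) * (∑ i ∈ range m, ∑ w : V, NM71.kf G M z i w * u2 G M z w) ≤
      2 ^ m * ∑ p ∈ unb G M m z, (thr G M m p : ℝ) := by
    rw [sum_comm, mul_sum, ← n4_sum_ub, mul_sum]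
    exact sum_le_sum fun w _ => h1 w
  have h3 : (∑ p ∈ unb G M m z, (thr G M m p : ℝ)) ≤
      (BB m : ℝ) * (2 * (1 / 500 * ((unm M).card : ℝ))) := by
    refine hE.trans ?_
    have h4 : 1 / (250 * ((m : ℝ) + 1)) ≤ 1 / 250 := by
      refine one_div_le_one_div_of_le (by norm_num) ?_
      have : (0 : ℝ) ≤ (m : ℝ) := by positivity
      linarith
    have h5 : (0 : ℝ) ≤ (BB m : ℝ) * ((unm M).card : ℝ) := by positivity
    calc 1 / (250 * ((m : ℝ) + 1)) * BB m * ((unm M).card : ℝ)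
        = 1 / (250 * ((m : ℝ) + 1)) * (BB m * ((unm M).card : ℝ)) := by ring
      _ ≤ 1 / 250 * (BB m * ((unm M).card : ℝ)) := mul_le_mul_of_nonneg_right h4 h5
      _ = _ := by ring
  have h6 : 2 ^ m * (BB m : ℝ) *
      (∑ i ∈ range m, ∑ w : V, NM71.kf G M z i w * u2 G M z w) ≤
      2 ^ m * (BB m : ℝ) * (2 * (1 / 500 * ((unm M).card : ℝ))) := by
    refine h2.trans ?_
    rw [mul_assoc]
    exact mul_le_mul_of_nonneg_left h3 h2m.le
  exact le_of_mul_le_mul_left h6 (by positivity)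

/-! ### The final statements -/

/-- The test function of version 3. -/
noncomputable def g3 (G M : SimpleGraph V) (z : V → ℝ) (m : ℕ) (x : V) : ℝ :=
  gz G M z (KK3 G M m z) m x

theorem g3_nonneg (z : V → ℝ) (m : ℕ) (x : V) : 0 ≤ g3 G M z m x :=
  n3_gz_nonneg z _ m x

theorem g3_indep (hM : IsMat G M) (m : ℕ) (z : V → ℝ) (hz : ∀ v, 0 ≤ z v) {x y : V}
    (h : G.Adj x y) : g3 G M z m x * g3 G M z m y = 0 :=
  n3_gz_indep hM m z _ hz (fun x y h1 h2 h3 h4 _ _ _ _ _ _ _ _ =>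
    n4_indep m z x y h1 h2 h3 h4) h

theorem g3_energy (hM : IsMat G M) (m : ℕ) (z : V → ℝ) (hz : ∀ v, 0 ≤ z v) :
    (151 / 51 : ℝ) ^ 2 * ((∑ x, (g3 G M z m x) ^ 2) - ((unm M).card : ℝ)) ≤
      ∑ y, (nsum G (g3 G M z m) y) ^ 2 :=
  n3_gz_energy hM m z _ hz

theorem g3_mass (hc : Cubic G) (hM : IsMat G M) (m : ℕ) (z : V → ℝ) (hz : ∀ v, 0 ≤ z v)
    (hE : ∑ p ∈ unb G M m z, (thr G M m p : ℝ) ≤
      1 / (250 * (m + 1)) * BB m * ((unm M).card : ℝ)) :
    (51 / 50 : ℝ) ^ m * (3 / 4 * ((unm M).card : ℝ) -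
        3 * Real.sqrt ((∑ v, (z v) ^ 2) * ((unm M).card : ℝ)) -
        3 * Real.sqrt ((∑ v, (z v) ^ 2) * ∑ y, (nsum G (g3 G M z m) y) ^ 2)) ≤
      ∑ x, g3 G M z m x := by
  have h1 := n3_gz_mass hc hM m z (KK3 G M m z) hz _ _ (n4_e1 hc hM m z hE)
    (n4_e2 hc hM m z hE)
  refine le_trans (mul_le_mul_of_nonneg_left ?_ (by positivity)) h1
  have h2 : (0 : ℝ) ≤ ((unm M).card : ℝ) := by positivity
  have h3 : ∑ y, (nsum G (g3 G M z m) y) ^ 2 =
      ∑ y, (nsum G (gz G M z (KK3 G M m z) m) y) ^ 2 := rfl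
  rw [h3]
  linarith

end NM72
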