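import Pool.Agent.NM71.Doubling
import Pool.Agent.NM72.Kill

set_option autoImplicit false

/-! V3: doubling that starts from the weights `thr`. -/

namespace NM72

open Finset Classical NM70
open NM71 (cc ld pld)

variable {V : Type*} [Fintype V] {G M : SimpleGraph V}

/-- The threshold. -/
def TT (m : ℕ) : ℕ := 16 * (m + 2) ^ 3 * BB m

/-- The number of doubling steps. -/
def KD (m : ℕ) : ℕ := 4 * Nat.log 2 (m + 2) + 16

/-- The path weights after `k` doubling steps; a path is blocked once its total load is at least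
`TT m`. -/
noncomputable def WW (G M : SimpleGraph V) (m : ℕ) : ℕ → PT V → ℕ
  | 0, p => thr G M m p
  | k + 1, p => if pld G M m (WW G M m k) p < TT m then 2 * WW G M m k p
      else WW G M m k p

/-- The final path weights. -/
noncomputable def WF (G M : SimpleGraph V) (m : ℕ) : PT V → ℕ := WW G M m (KD m)

/-- The normalised load. -/
noncomputable def zz (G M : SimpleGraph V) (m : ℕ) (v : V) : ℝ :=
  (ld G M m (WF G M m) v : ℝ) / TT m

omit [Fintype V] in
theorem TT_pos (m : ℕ) : 0 < TT m := by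
  unfold TT
  have : 0 < BB m := Nat.factorial_pos _
  positivity

theorem n5_WW_succ (m k : ℕ) (p : PT V) :
    WW G M m (k + 1) p = WW G M m k p +
      if pld G M m (WW G M m k) p < TT m then WW G M m k p else 0 := by
  rw [WW]
  split_ifs
  · ring
  · rfl

theorem n5_WW_mono (m k j : ℕ) (p : PT V) : WW G M m k p ≤ WW G M m (k + j) p := by
  induction j with
  | zero => exact le_rfl
  | succ j ih =>
    rw [← add_assoc, n5_WW_succ]
    omega

theorem zz_nonneg (m : ℕ) (v : V) : 0 ≤ zz G M m v := by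
  unfold zz
  positivity

/-- The base case of the energy estimate. -/
theorem n5_base (hc : Cubic G) (hM : IsMat G M) (m : ℕ) {p : PT V} (hp : p ∈ augs G M m) :
    pld G M m (thr G M m) p ≤ 3 * TT m := by
  have h1 : ∀ v, ld G M m (thr G M m) v ≤ 6 * (m + 2) ^ 2 * BB m := fun v => h4_L hc hM m v
  calc pld G M m (thr G M m) p
      ≤ ∑ v ∈ (vs p).toFinset, 6 * (m + 2) ^ 2 * BB m := sum_le_sum fun v _ => h1 v
    _ = (vs p).toFinset.card * (6 * (m + 2) ^ 2 * BB m) := by
        rw [sum_const, smul_eq_mul]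
    _ ≤ (4 * m + 2) * (6 * (m + 2) ^ 2 * BB m) :=
        Nat.mul_le_mul_right _ ((List.toFinset_card_le _).trans (NM71.va_len hp))
    _ ≤ 3 * TT m := by
        unfold TT
        have h2 : 4 * m + 2 ≤ 8 * (m + 2) := by omega
        calc (4 * m + 2) * (6 * (m + 2) ^ 2 * BB m) ≤ (8 * (m + 2)) * (6 * (m + 2) ^ 2 * BB m) :=
              Nat.mul_le_mul_right _ h2
          _ = 3 * (16 * (m + 2) ^ 3 * BB m) := by ring

theorem n5_step (hc : Cubic G) (hM : IsMat G M) (m k : ℕ) :
    ∑ v, (ld G M m (WW G M m k) v) ^ 2 ≤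
      3 * TT m * ∑ p ∈ augs G M m, WW G M m k p := by
  induction k with
  | zero =>
    rw [NM71.sum_ld_sq_eq, mul_sum]
    refine sum_le_sum fun p hp => ?_
    have h0 : WW G M m 0 = thr G M m := by
      funext p
      simp [WW]
    rw [h0, mul_comm]
    exact Nat.mul_le_mul_right _ (n5_base hc hM m hp)
  | succ k ih =>
    set W := WW G M m k with hW
    set D : PT V → ℕ := fun p => if pld G M m W p < TT m then W p else 0 with hD
    have h1 : WW G M m (k + 1) = fun p => W p + D p := by
      funext p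
      exact n5_WW_succ m k p
    have hDW : ∀ p, D p ≤ W p := by
      intro p
      simp only [hD]
      split_ifs
      · exact le_rfl
      · exact Nat.zero_le _
    rw [h1]
    simp only [NM71.va_ld_add]
    have h2 : ∀ v, (ld G M m W v + ld G M m D v) ^ 2 ≤
        (ld G M m W v) ^ 2 + 3 * (ld G M m W v * ld G M m D v) := by
      intro v
      have h3 := NM71.va_ld_mono (G := G) (M := M) m hDW v
      nlinarith
    have h4 : ∑ v, ld G M m W v * ld G M m D v ≤ TT m * ∑ p ∈ augs G M m, D p := by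
      rw [NM71.va_pair, mul_sum]
      refine sum_le_sum fun p _ => ?_
      simp only [hD]
      split_ifs with h
      · rw [mul_comm]
        exact Nat.mul_le_mul_right _ h.le
      · simp
    calc ∑ v, (ld G M m W v + ld G M m D v) ^ 2
        ≤ ∑ v, ((ld G M m W v) ^ 2 + 3 * (ld G M m W v * ld G M m D v)) :=
          sum_le_sum fun v _ => h2 v
      _ = ∑ v, (ld G M m W v) ^ 2 + 3 * ∑ v, ld G M m W v * ld G M m D v := by
          rw [sum_add_distrib, mul_sum]
      _ ≤ 3 * TT m * ∑ p ∈ augs G M m, W p + 3 * (TT m * ∑ p ∈ augs G M m, D p) :=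
          Nat.add_le_add ih (Nat.mul_le_mul_left _ h4)
      _ = 3 * TT m * ∑ p ∈ augs G M m, (W p + D p) := by
          rw [sum_add_distrib]; ring

/-- The sum of the squares of the loads is at most three times the total weight. -/
theorem sum_ld_sq (hc : Cubic G) (hM : IsMat G M) (m : ℕ) :
    ∑ v, (ld G M m (WF G M m) v) ^ 2 ≤ 3 * TT m * ∑ p ∈ augs G M m, WF G M m p :=
  n5_step hc hM m (KD m)

/-- The weights are at most twice the threshold. -/
theorem WW_le (hc : Cubic G) (hM : IsMat G M) (m k : ℕ) {p : PT V} (hp : p ∈ augs G M m) :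
    WW G M m k p ≤ 2 * TT m := by
  have hv : p.1.1 ∈ vs p := by
    obtain ⟨-, -, h1, -⟩ := mem_augs.1 hp
    exact List.mem_append_left _ (NM71.va_HH_ne h1)
  have hle : ∀ W : PT V → ℕ, W p ≤ pld G M m W p := by
    intro W
    calc W p ≤ ld G M m W p.1.1 :=
          single_le_sum (f := fun p => W p) (fun _ _ => Nat.zero_le _) (mem_filter.2 ⟨hp, hv⟩)
      _ ≤ pld G M m W p :=
          single_le_sum (f := fun v => ld G M m W v) (fun _ _ => Nat.zero_le _)
            (List.mem_toFinset.2 hv)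
  induction k with
  | zero =>
    have h0 : WW G M m 0 = thr G M m := by
      funext p
      simp [WW]
    rw [h0]
    have h1 := hle (thr G M m)
    have h2 : ld G M m (thr G M m) p.1.1 ≤ 6 * (m + 2) ^ 2 * BB m := h4_L hc hM m _
    have h3 : thr G M m p ≤ ld G M m (thr G M m) p.1.1 :=
      single_le_sum (f := fun p => thr G M m p) (fun _ _ => Nat.zero_le _)
        (mem_filter.2 ⟨hp, hv⟩)
    refine (h3.trans h2).trans ?_
    unfold TT
    have h4 : 6 * (m + 2) ^ 2 ≤ 2 * (16 * (m + 2) ^ 3) := by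
      have : (m + 2) ^ 3 = (m + 2) ^ 2 * (m + 2) := by ring
      rw [this]
      have h5 : (m + 2) ^ 2 * 1 ≤ (m + 2) ^ 2 * (m + 2) := Nat.mul_le_mul_left _ (by omega)
      omega
    calc 6 * (m + 2) ^ 2 * BB m ≤ 2 * (16 * (m + 2) ^ 3) * BB m := Nat.mul_le_mul_right _ h4
      _ = 2 * (16 * (m + 2) ^ 3 * BB m) := by ring
  | succ k ih =>
    rw [n5_WW_succ]
    split_ifs with h
    · have := hle (WW G M m k)
      omega
    · omega

/-- The last vertex of a half path is unmatched. -/
theorem n5_unm {i : ℕ} {x : V} {q : List V} (hq : q ∈ halves G M i x) : ∃ u ∈ q, Unm M u := by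
  induction i generalizing x q with
  | zero =>
    obtain ⟨h1, rfl⟩ := mem_halves_zero.1 hq
    exact ⟨x, by simp, h1⟩
  | succ i ih =>
    obtain ⟨y, z, l, -, -, -, h4, rfl⟩ := mem_halves_succ.1 hq
    obtain ⟨u, hu, h5⟩ := ih h4
    exact ⟨u, by simp [hu], h5⟩

theorem n5_arith (m : ℕ) : 4000 * ((m + 1) * (m + 2) ^ 3) ≤ 2 ^ KD m := by
  have h1 : m + 2 < 2 ^ (Nat.log 2 (m + 2) + 1) := Nat.lt_pow_succ_log_self (by norm_num) _
  set t := 2 ^ (Nat.log 2 (m + 2)) with ht
  have h2 : m + 2 ≤ 2 * t := by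
    rw [pow_succ] at h1
    omega
  have h3 : 2 ^ KD m = 65536 * t ^ 4 := by
    unfold KD
    rw [pow_add, mul_comm 4, pow_mul, ← ht]
    norm_num
    ring
  rw [h3]
  calc 4000 * ((m + 1) * (m + 2) ^ 3) ≤ 4000 * ((m + 2) * (m + 2) ^ 3) :=
        Nat.mul_le_mul_left _ (Nat.mul_le_mul_right _ (by omega))
    _ = 4000 * (m + 2) ^ 4 := by ring
    _ ≤ 4000 * (2 * t) ^ 4 := Nat.mul_le_mul_left _ (Nat.pow_le_pow_left h2 4)
    _ = 64000 * t ^ 4 := by ring
    _ ≤ 65536 * t ^ 4 := Nat.mul_le_mul_right _ (by norm_num)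

theorem n5_cc_sum (m : ℕ) (q : List V) :
    cc (zz G M m) q = ((q.map (ld G M m (WF G M m))).sum : ℝ) / TT m := by
  unfold cc zz
  induction q with
  | nil => simp
  | cons x q ih =>
    rw [List.map_cons, List.sum_cons, ih, List.map_cons, List.sum_cons]
    push_cast
    ring

omit [Fintype V] in
theorem n5_toFinset_sum (f : V → ℕ) (l : List V) : ∑ v ∈ l.toFinset, f v ≤ (l.map f).sum := by
  induction l with
  | nil => simp
  | cons x l ih =>
    rw [List.toFinset_cons, List.map_cons, List.sum_cons]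
    by_cases h : x ∈ l.toFinset
    · rw [insert_eq_of_mem h]
      omega
    · rw [sum_insert h]
      omega

theorem n5_unb_pld (m : ℕ) {p : PT V} (hp : p ∈ unb G M m (zz G M m)) :
    pld G M m (WF G M m) p < TT m := by
  unfold unb at hp
  rw [mem_filter] at hp
  have h1 := hp.2
  rw [n5_cc_sum, n5_cc_sum, ← add_div, div_lt_one (by exact_mod_cast TT_pos m)] at h1
  have h2 : (p.2.1.map (ld G M m (WF G M m))).sum + (p.2.2.map (ld G M m (WF G M m))).sum <
      TT m := by exact_mod_cast h1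
  refine lt_of_le_of_lt ?_ h2
  rw [← List.sum_append, ← List.map_append]
  exact n5_toFinset_sum _ _

/-- An unblocked path was doubled at every step. -/
theorem n5_doubled (m : ℕ) {p : PT V} (hp : pld G M m (WF G M m) p < TT m) :
    WF G M m p = 2 ^ KD m * thr G M m p := by
  have key : ∀ k ≤ KD m, WW G M m k p = 2 ^ k * thr G M m p := by
    intro k
    induction k with
    | zero => intro _; simp [WW]
    | succ k ih =>
      intro hk
      have h1 : pld G M m (WW G M m k) p < TT m := by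
        refine lt_of_le_of_lt ?_ hp
        refine NM71.va_pld_mono m (fun p => ?_) p
        have h2 := n5_WW_mono (G := G) (M := M) m k (KD m - k) p
        rwa [Nat.add_sub_cancel' (by omega)] at h2
      rw [n5_WW_succ, if_pos h1, ih (by omega), pow_succ]
      ring
  exact key (KD m) le_rfl

/-- The total weight of the unblocked paths. -/
theorem n5_unb_weight (m : ℕ) :
    ∑ p ∈ unb G M m (zz G M m), WF G M m p ≤ TT m * (unm M).card := by
  set Us := (unm M).filter fun u => ld G M m (WF G M m) u < TT m with hUs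
  have h1 : unb G M m (zz G M m) ⊆ Us.biUnion fun u => (augs G M m).filter fun p => u ∈ vs p := by
    intro p hp
    have hpl := n5_unb_pld m hp
    have hpa : p ∈ augs G M m := (mem_filter.1 hp).1
    obtain ⟨-, -, h2, -⟩ := mem_augs.1 hpa
    obtain ⟨i, -, h3⟩ := mem_HH.1 h2
    obtain ⟨u, hu, hu'⟩ := n5_unm h3
    have huv : u ∈ vs p := List.mem_append_left _ hu
    rw [mem_biUnion]
    refine ⟨u, ?_, mem_filter.2 ⟨hpa, huv⟩⟩
    rw [hUs, mem_filter, unm, mem_filter]
    refine ⟨⟨mem_univ _, hu'⟩, lt_of_le_of_lt ?_ hpl⟩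
    exact single_le_sum (f := fun v => ld G M m (WF G M m) v) (fun _ _ => Nat.zero_le _)
      (List.mem_toFinset.2 huv)
  calc ∑ p ∈ unb G M m (zz G M m), WF G M m p
      ≤ ∑ p ∈ Us.biUnion fun u => (augs G M m).filter fun p => u ∈ vs p, WF G M m p :=
        sum_le_sum_of_subset h1
    _ ≤ ∑ u ∈ Us, ∑ p ∈ (augs G M m).filter fun p => u ∈ vs p, WF G M m p :=
        h4_sum_biUnion_le _ _ _
    _ = ∑ u ∈ Us, ld G M m (WF G M m) u := rfl
    _ ≤ ∑ u ∈ Us, TT m := sum_le_sum fun u hu => by
        rw [hUs, mem_filter] at hu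
        exact hu.2.le
    _ = Us.card * TT m := by rw [sum_const, smul_eq_mul]
    _ ≤ (unm M).card * TT m := Nat.mul_le_mul_right _ (card_filter_le _ _)
    _ = TT m * (unm M).card := by ring

theorem n5_cancel (m S b u t : ℕ) (h3 : 4000 * ((m + 1) * (m + 2) ^ 3) ≤ t)
    (h1 : t * S ≤ 16 * (m + 2) ^ 3 * b * u) : 250 * (m + 1) * S ≤ b * u := by
  obtain ⟨c, hc⟩ : ∃ c, c = 16 * (m + 2) ^ 3 := ⟨_, rfl⟩
  have hc0 : 0 < c := by
    rw [hc]
    positivity
  rw [← hc] at h1
  have h2 : 4000 * ((m + 1) * (m + 2) ^ 3) = c * (250 * (m + 1)) := by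
    rw [hc]
    ring
  rw [h2] at h3
  have h6 : c * (250 * (m + 1) * S) ≤ c * (b * u) := by
    calc c * (250 * (m + 1) * S) = c * (250 * (m + 1)) * S := by ring
      _ ≤ t * S := Nat.mul_le_mul_right _ h3
      _ ≤ c * b * u := h1
      _ = _ := by ring
  exact le_of_mul_le_mul_left h6 hc0

/-- The initial weight of the unblocked paths is small. -/
theorem unb_small (m : ℕ) :
    ∑ p ∈ unb G M m (zz G M m), (thr G M m p : ℝ) ≤
      1 / (250 * (m + 1)) * BB m * ((unm M).card : ℝ) := by
  have h9 : (0 : ℝ) < 250 * ((m : ℝ) + 1) := mul_pos (by norm_num) (Nat.cast_add_one_pos m)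
  have h1 := n5_unb_weight (G := G) (M := M) m
  have h2 : ∑ p ∈ unb G M m (zz G M m), WF G M m p =
      2 ^ KD m * ∑ p ∈ unb G M m (zz G M m), thr G M m p := by
    rw [mul_sum]
    exact sum_congr rfl fun p hp => n5_doubled m (n5_unb_pld m hp)
  rw [h2] at h1
  have h3 := n5_arith m
  set S := ∑ p ∈ unb G M m (zz G M m), thr G M m p with hS
  have h5 : 250 * (m + 1) * S ≤ BB m * (unm M).card := by
    unfold TT at h1
    exact n5_cancel m S (BB m) (unm M).card (2 ^ KD m) h3 h1
  have h7 : (250 * ((m : ℝ) + 1)) * (S : ℝ) ≤ BB m * ((unm M).card : ℝ) := by exact_mod_cast h5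
  have h8 : (S : ℝ) = ∑ p ∈ unb G M m (zz G M m), (thr G M m p : ℝ) := by
    rw [hS]
    push_cast
    rfl
  rw [← h8, mul_assoc, one_div, ← div_eq_inv_mul, le_div_iff₀ h9, mul_comm]
  exact h7

end NM72
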