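import Pool.Agent.NM71.Energy

set_option autoImplicit false

/-! V3: the energy argument with an arbitrary killed set, deterministic part. -/

namespace NM72

open Finset Classical NM70
open NM71 (cc liv c1_mem_liv c1_cc_cons c2_cc_nonneg c2_sum_halves_succ c2d c2d_eq c2_sum_nbr
  c2d_le_three c2d_le_two c2d_nonneg c2_cs c2_P_sq)

variable {V : Type*} [Fintype V] {G M : SimpleGraph V}

omit [Fintype V] in
/-- No head (vertex at an even position) of the list is killed. -/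
def hk (Kd : V → Prop) : List V → Prop
  | [] => True
  | [x] => ¬ Kd x
  | x :: _ :: l => ¬ Kd x ∧ hk Kd l

/-- The living half paths: accumulated load less than `1 / 2`, no killed head. -/
noncomputable def lv (G M : SimpleGraph V) (z : V → ℝ) (Kd : V → Prop) (i : ℕ) (x : V) :
    Finset (List V) :=
  (halves G M i x).filter fun q => cc z q < 1 / 2 ∧ hk Kd q

/-- The mass of the living half paths. -/
noncomputable def kf (G M : SimpleGraph V) (z : V → ℝ) (Kd : V → Prop) (i : ℕ) (x : V) : ℝ :=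
  ((lv G M z Kd i x).card : ℝ) / 2 ^ i

/-- The test function of the energy argument. -/
noncomputable def gz (G M : SimpleGraph V) (z : V → ℝ) (Kd : V → Prop) (m : ℕ) (x : V) : ℝ :=
  ∑ i ∈ range (m + 1), (51 / 50 : ℝ) ^ i * kf G M z Kd i x

theorem n3_mem_lv {z : V → ℝ} {Kd : V → Prop} {i : ℕ} {x : V} {q : List V} :
    q ∈ lv G M z Kd i x ↔ q ∈ halves G M i x ∧ cc z q < 1 / 2 ∧ hk Kd q := by
  unfold lv
  rw [mem_filter]

theorem n3_lv_sub {z : V → ℝ} {Kd : V → Prop} {i : ℕ} {x : V} :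
    lv G M z Kd i x ⊆ liv G M z i x := by
  intro q hq
  have h := n3_mem_lv.1 hq
  exact c1_mem_liv.2 ⟨h.1, h.2.1⟩

theorem n3_head {z : V → ℝ} {Kd : V → Prop} {i : ℕ} {x : V} {q : List V}
    (hq : q ∈ lv G M z Kd i x) : ¬ Kd x := by
  obtain ⟨h1, -, h2⟩ := n3_mem_lv.1 hq
  cases i with
  | zero =>
    obtain ⟨-, rfl⟩ := mem_halves_zero.1 h1
    exact h2
  | succ i =>
    obtain ⟨y, w, l, -, -, -, -, rfl⟩ := mem_halves_succ.1 h1
    exact h2.1

theorem n3_kf_nonneg (z : V → ℝ) (Kd : V → Prop) (i : ℕ) (x : V) : 0 ≤ kf G M z Kd i x := by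
  unfold kf
  positivity

theorem n3_gz_nonneg (z : V → ℝ) (Kd : V → Prop) (m : ℕ) (x : V) : 0 ≤ gz G M z Kd m x := by
  unfold gz
  refine sum_nonneg fun i _ => ?_
  have := n3_kf_nonneg (G := G) (M := M) z Kd i x
  positivity

theorem n3_exists_lv {z : V → ℝ} {Kd : V → Prop} {m : ℕ} {x : V} (h : gz G M z Kd m x ≠ 0) :
    ∃ i ≤ m, ∃ q, q ∈ lv G M z Kd i x := by
  unfold gz at h
  obtain ⟨i, hi, hne⟩ := exists_ne_zero_of_sum_ne_zero h
  rw [mem_range, Nat.lt_succ_iff] at hi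
  refine ⟨i, hi, ?_⟩
  by_contra hno
  push Not at hno
  apply hne
  have h0 : lv G M z Kd i x = ∅ := eq_empty_of_forall_notMem hno
  unfold kf
  rw [h0]
  simp

/-- The support of `gz` is independent, if at every edge outside `M` one end is killed or has no
half path of small load. -/
theorem n3_gz_indep (hM : IsMat G M) (m : ℕ) (z : V → ℝ) (Kd : V → Prop) (hz : ∀ v, 0 ≤ z v)
    (hb : ∀ x y, G.Adj x y → ¬ M.Adj x y → ¬ Kd x → ¬ Kd y → ∀ i ≤ m, ∀ j ≤ m,
      ∀ q ∈ liv G M z i x, ∀ q' ∈ liv G M z j y, False) {x y : V} (h : G.Adj x y) :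
    gz G M z Kd m x * gz G M z Kd m y = 0 := by
  by_contra hne
  obtain ⟨hx, hy⟩ := mul_ne_zero_iff.1 hne
  obtain ⟨i, hi, q, hq⟩ := n3_exists_lv hx
  obtain ⟨j, hj, q', hq'⟩ := n3_exists_lv hy
  by_cases hxy : M.Adj x y
  · obtain ⟨hq1, hq2, hq3⟩ := n3_mem_lv.1 hq
    cases i with
    | zero => exact (mem_halves_zero.1 hq1).1 y hxy
    | succ i =>
      obtain ⟨y', z', l, h1, h2, h3, h4, rfl⟩ := mem_halves_succ.1 hq1
      have hyy : y' = y := hM.uniq x y' y h1 hxy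
      subst hyy
      have hnz : ¬ M.Adj z' y' := fun h5 => h3 (hM.uniq y' z' x h5.symm h1.symm)
      have hl : l ∈ lv G M z Kd i z' := by
        rw [n3_mem_lv]
        refine ⟨h4, ?_, hq3.2⟩
        rw [c1_cc_cons, c1_cc_cons] at hq2
        have h7 := hz x
        have h8 := hz y'
        linarith
      exact hb z' y' h2.symm hnz (n3_head hl) (n3_head hq') i (by omega) j hj l (n3_lv_sub hl)
        q' (n3_lv_sub hq')
  · exact hb x y h hxy (n3_head hq) (n3_head hq') i hi j hj q (n3_lv_sub hq) q' (n3_lv_sub hq')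

/-! ### Sums over extensions -/

/-- The sum over all one-step extensions of the living half paths of level `i`. -/
noncomputable def c3E (G M : SimpleGraph V) (z : V → ℝ) (Kd : V → Prop) (i : ℕ)
    (ψ : V → V → List V → ℝ) : ℝ :=
  ∑ w : V, ∑ q ∈ lv G M z Kd i w, ∑ y : V, ∑ x : V,
    if M.Adj x y ∧ G.Adj y w ∧ w ≠ x then ψ x y q else 0

theorem c3E_le {z : V → ℝ} {Kd : V → Prop} {i : ℕ} {ψ ψ' : V → V → List V → ℝ}
    (h : ∀ x y q, ψ x y q ≤ ψ' x y q) : c3E G M z Kd i ψ ≤ c3E G M z Kd i ψ' := by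
  unfold c3E
  refine sum_le_sum fun w _ => sum_le_sum fun q _ => sum_le_sum fun y _ => sum_le_sum fun x _ => ?_
  split_ifs
  · exact h x y q
  · exact le_rfl

theorem c3E_le_c2E {z : V → ℝ} {Kd : V → Prop} {i : ℕ} {ψ : V → V → List V → ℝ}
    (h : ∀ x y q, 0 ≤ ψ x y q) : c3E G M z Kd i ψ ≤ NM71.c2E G M z i ψ := by
  unfold c3E NM71.c2E
  refine sum_le_sum fun w _ => ?_
  refine sum_le_sum_of_subset_of_nonneg n3_lv_sub fun q _ _ => ?_
  refine sum_nonneg fun y _ => sum_nonneg fun x _ => ?_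
  split_ifs
  · exact h x y q
  · exact le_rfl

theorem c3E_add {z : V → ℝ} {Kd : V → Prop} {i : ℕ} {ψ ψ' : V → V → List V → ℝ} :
    c3E G M z Kd i (fun x y q => ψ x y q + ψ' x y q) =
      c3E G M z Kd i ψ + c3E G M z Kd i ψ' := by
  unfold c3E
  rw [← sum_add_distrib]
  refine sum_congr rfl fun w _ => ?_
  rw [← sum_add_distrib]
  refine sum_congr rfl fun q _ => ?_
  rw [← sum_add_distrib]
  refine sum_congr rfl fun y _ => ?_
  rw [← sum_add_distrib]
  refine sum_congr rfl fun x _ => ?_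
  split_ifs
  · rfl
  · simp

theorem c3E_smul {z : V → ℝ} {Kd : V → Prop} {i : ℕ} {ψ : V → V → List V → ℝ} (c : ℝ) :
    c3E G M z Kd i (fun x y q => c * ψ x y q) = c * c3E G M z Kd i ψ := by
  unfold c3E
  rw [mul_sum]
  refine sum_congr rfl fun w _ => ?_
  rw [mul_sum]
  refine sum_congr rfl fun q _ => ?_
  rw [mul_sum]
  refine sum_congr rfl fun y _ => ?_
  rw [mul_sum]
  refine sum_congr rfl fun x _ => ?_
  split_ifs
  · rfl
  · simp

/-- The living half paths of the next level are the living extensions. -/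
theorem c3_exch {z : V → ℝ} {Kd : V → Prop} (hz : ∀ v, 0 ≤ z v) (i : ℕ) (Ψ : List V → ℝ) :
    ∑ x : V, ∑ q ∈ lv G M z Kd (i + 1) x, Ψ q =
      c3E G M z Kd i (fun x y q => if cc z (x :: y :: q) < 1 / 2 ∧ ¬ Kd x then
        Ψ (x :: y :: q) else 0) := by
  have h1 : ∀ x : V, ∑ q ∈ lv G M z Kd (i + 1) x, Ψ q = ∑ y : V, ∑ w : V,
      ∑ q ∈ lv G M z Kd i w, if M.Adj x y ∧ G.Adj y w ∧ w ≠ x then
        (if cc z (x :: y :: q) < 1 / 2 ∧ ¬ Kd x then Ψ (x :: y :: q) else 0) else 0 := by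
    intro x
    unfold lv
    rw [sum_filter, c2_sum_halves_succ, Fintype.sum_prod_type]
    refine sum_congr rfl fun y _ => sum_congr rfl fun w _ => ?_
    dsimp only
    split_ifs with h
    · rw [sum_filter]
      refine sum_congr rfl fun q _ => ?_
      have hhk : hk Kd (x :: y :: q) ↔ ¬ Kd x ∧ hk Kd q := by simp only [hk]
      by_cases h2 : cc z q < 1 / 2 ∧ hk Kd q
      · rw [if_pos h2]
        by_cases h3 : cc z (x :: y :: q) < 1 / 2 ∧ ¬ Kd x
        · rw [if_pos h3, if_pos ⟨h3.1, hhk.2 ⟨h3.2, h2.2⟩⟩]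
        · rw [if_neg h3, if_neg fun h4 => h3 ⟨h4.1, (hhk.1 h4.2).1⟩]
      · rw [if_neg h2, if_neg]
        rintro ⟨h3, h4⟩
        refine h2 ⟨?_, (hhk.1 h4).2⟩
        rw [c1_cc_cons, c1_cc_cons] at h3
        have h7 := hz x
        have h8 := hz y
        linarith
    · simp
  rw [sum_congr rfl fun x _ => h1 x]
  unfold c3E
  rw [sum_comm]
  have h2 : ∀ y : V, (∑ x : V, ∑ w : V,
      ∑ q ∈ lv G M z Kd i w, if M.Adj x y ∧ G.Adj y w ∧ w ≠ x then
        (if cc z (x :: y :: q) < 1 / 2 ∧ ¬ Kd x then Ψ (x :: y :: q) else 0) else 0) =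
      ∑ w : V, ∑ x : V, ∑ q ∈ lv G M z Kd i w, if M.Adj x y ∧ G.Adj y w ∧ w ≠ x then
        (if cc z (x :: y :: q) < 1 / 2 ∧ ¬ Kd x then Ψ (x :: y :: q) else 0) else 0 :=
    fun y => sum_comm
  rw [sum_congr rfl fun y _ => h2 y, sum_comm]
  refine sum_congr rfl fun w _ => ?_
  have h3 : ∀ y : V, (∑ x : V, ∑ q ∈ lv G M z Kd i w, if M.Adj x y ∧ G.Adj y w ∧ w ≠ x then
        (if cc z (x :: y :: q) < 1 / 2 ∧ ¬ Kd x then Ψ (x :: y :: q) else 0) else 0) =
      ∑ q ∈ lv G M z Kd i w, ∑ x : V, if M.Adj x y ∧ G.Adj y w ∧ w ≠ x then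
        (if cc z (x :: y :: q) < 1 / 2 ∧ ¬ Kd x then Ψ (x :: y :: q) else 0) else 0 :=
    fun y => sum_comm
  rw [sum_congr rfl fun y _ => h3 y, sum_comm]

theorem c3E_const (z : V → ℝ) (Kd : V → Prop) (i : ℕ) (φ : List V → ℝ) :
    c3E G M z Kd i (fun _ _ q => φ q) = ∑ w : V, ∑ q ∈ lv G M z Kd i w, φ q * c2d G M w := by
  unfold c3E c2d
  refine sum_congr rfl fun w _ => sum_congr rfl fun q _ => ?_
  rw [mul_sum]
  refine sum_congr rfl fun y _ => ?_
  rw [mul_sum]
  refine sum_congr rfl fun x _ => ?_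
  split_ifs <;> simp

/-! ### Energy -/

theorem n3_lv_unm {z : V → ℝ} {Kd : V → Prop} {x : V} (hx : Unm M x) (i : ℕ) :
    lv G M z Kd (i + 1) x = ∅ := by
  refine eq_empty_of_forall_notMem fun q hq => ?_
  obtain ⟨y, -, -, h1, -⟩ := mem_halves_succ.1 (n3_mem_lv.1 hq).1
  exact hx y h1

theorem n3_kf_succ_le (hM : IsMat G M) {z : V → ℝ} {Kd : V → Prop} (hz : ∀ v, 0 ≤ z v) {x y : V}
    (hxy : M.Adj x y) (i : ℕ) :
    2 * kf G M z Kd (i + 1) x ≤ ∑ w : V, if G.Adj y w ∧ w ≠ x then kf G M z Kd i w else 0 := by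
  have h1 : ((lv G M z Kd (i + 1) x).card : ℝ) ≤ ∑ w : V, if G.Adj y w ∧ w ≠ x then
      ((lv G M z Kd i w).card : ℝ) else 0 := by
    have h0 : ((lv G M z Kd (i + 1) x).card : ℝ) = ∑ q ∈ lv G M z Kd (i + 1) x, (1 : ℝ) := by
      rw [sum_const, nsmul_one]
    rw [h0]
    unfold lv
    rw [sum_filter, c2_sum_halves_succ, Fintype.sum_prod_type, sum_eq_single y]
    · refine sum_le_sum fun w _ => ?_
      dsimp only
      by_cases h : G.Adj y w ∧ w ≠ x
      · rw [if_pos h, if_pos ⟨hxy, h.1, h.2⟩]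
        have h5 : (((halves G M i w).filter fun q => cc z q < 1 / 2 ∧ hk Kd q).card : ℝ) =
            ∑ q ∈ (halves G M i w).filter fun q => cc z q < 1 / 2 ∧ hk Kd q, (1 : ℝ) := by
          rw [sum_const, nsmul_one]
        rw [h5, sum_filter]
        refine sum_le_sum fun q _ => ?_
        have hhk : hk Kd (x :: y :: q) ↔ ¬ Kd x ∧ hk Kd q := by simp only [hk]
        by_cases h6 : cc z (x :: y :: q) < 1 / 2 ∧ hk Kd (x :: y :: q)
        · rw [if_pos h6, if_pos]
          refine ⟨?_, (hhk.1 h6.2).2⟩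
          have h8 := h6.1
          rw [c1_cc_cons, c1_cc_cons] at h8
          have h9 := hz x
          have h10 := hz y
          linarith
        · rw [if_neg h6]
          split_ifs <;> norm_num
      · rw [if_neg h, if_neg fun h' => h ⟨h'.2.1, h'.2.2⟩]
    · intro y' _ hne
      refine sum_eq_zero fun w _ => ?_
      rw [if_neg]
      exact fun h' => hne (hM.uniq x y' y h'.1 hxy)
    · intro h
      exact absurd (mem_univ _) h
  have h4 : (∑ w : V, if G.Adj y w ∧ w ≠ x then kf G M z Kd i w else 0) =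
      (∑ w : V, if G.Adj y w ∧ w ≠ x then ((lv G M z Kd i w).card : ℝ) else 0) / 2 ^ i := by
    rw [sum_div]
    refine sum_congr rfl fun w _ => ?_
    split_ifs with h
    · rfl
    · simp
  rw [h4]
  have h5 : 2 * kf G M z Kd (i + 1) x = ((lv G M z Kd (i + 1) x).card : ℝ) / 2 ^ i := by
    unfold kf
    rw [pow_succ]
    field_simp
  rw [h5]
  exact div_le_div_of_nonneg_right h1 (by positivity)

theorem n3_kf_zero_matched {z : V → ℝ} {Kd : V → Prop} {x y : V} (hxy : M.Adj x y) :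
    kf G M z Kd 0 x = 0 := by
  have h : lv G M z Kd 0 x = ∅ := by
    refine eq_empty_of_forall_notMem fun q hq => ?_
    exact (mem_halves_zero.1 (n3_mem_lv.1 hq).1).1 y hxy
  unfold kf
  rw [h]
  simp

theorem n3_kf_zero_le {z : V → ℝ} {Kd : V → Prop} (x : V) : kf G M z Kd 0 x ≤ 1 := by
  unfold kf
  have h : (lv G M z Kd 0 x).card ≤ 1 := by
    have : lv G M z Kd 0 x ⊆ {[x]} := by
      intro q hq
      rw [mem_singleton]
      exact (mem_halves_zero.1 (n3_mem_lv.1 hq).1).2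
    exact (card_le_card this).trans (card_singleton _).le
  rw [pow_zero, div_one]
  exact_mod_cast h

theorem n3_gz_unm {z : V → ℝ} {Kd : V → Prop} {x : V} (hx : Unm M x) (m : ℕ) :
    gz G M z Kd m x = kf G M z Kd 0 x := by
  unfold gz
  rw [sum_range_succ']
  rw [sum_eq_zero, zero_add, pow_zero, one_mul]
  intro i _
  unfold kf
  rw [n3_lv_unm hx]
  simp

theorem n3_gz_matched {z : V → ℝ} {Kd : V → Prop} {x y : V} (hxy : M.Adj x y) (m : ℕ) :
    gz G M z Kd m x = ∑ i ∈ range m, (51 / 50 : ℝ) ^ (i + 1) * kf G M z Kd (i + 1) x := by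
  unfold gz
  rw [sum_range_succ', n3_kf_zero_matched hxy, mul_zero, add_zero]

/-- The key inequality: the neighbour sum at the partner. -/
theorem n3_nsum_partner (hM : IsMat G M) (m : ℕ) {z : V → ℝ} {Kd : V → Prop}
    (hz : ∀ v, 0 ≤ z v) {x y : V} (hxy : M.Adj x y) :
    (151 / 51 : ℝ) * gz G M z Kd m x ≤ nsum G (gz G M z Kd m) y := by
  have hG : G.Adj x y := hM.le x y hxy
  have h1 : nsum G (gz G M z Kd m) y = gz G M z Kd m x +
      ∑ w : V, if G.Adj y w ∧ w ≠ x then gz G M z Kd m w else 0 := by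
    unfold nsum
    rw [← add_sum_erase univ _ (mem_univ x), if_pos hG.symm]
    congr 1
    rw [← add_sum_erase univ (fun w => if G.Adj y w ∧ w ≠ x then gz G M z Kd m w else 0)
      (mem_univ x)]
    rw [if_neg (fun h => h.2 rfl), zero_add]
    refine sum_congr rfl fun w hw => ?_
    rw [mem_erase] at hw
    by_cases h : G.Adj y w
    · rw [if_pos h, if_pos ⟨h, hw.1⟩]
    · rw [if_neg h, if_neg fun h' => h h'.1]
  have h2 : ∀ w, (∑ i ∈ range m, (51 / 50 : ℝ) ^ i * kf G M z Kd i w) ≤ gz G M z Kd m w := by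
    intro w
    unfold gz
    rw [sum_range_succ]
    have h3 := n3_kf_nonneg (G := G) (M := M) z Kd m w
    have h4 : 0 ≤ (51 / 50 : ℝ) ^ m * kf G M z Kd m w := by positivity
    linarith
  have h3 : (∑ w : V, if G.Adj y w ∧ w ≠ x then
      (∑ i ∈ range m, (51 / 50 : ℝ) ^ i * kf G M z Kd i w) else 0) ≤
      ∑ w : V, if G.Adj y w ∧ w ≠ x then gz G M z Kd m w else 0 := by
    refine sum_le_sum fun w _ => ?_
    split_ifs with h
    · exact h2 w
    · exact le_rfl
  have h4 : (∑ w : V, if G.Adj y w ∧ w ≠ x then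
      (∑ i ∈ range m, (51 / 50 : ℝ) ^ i * kf G M z Kd i w) else 0) =
      ∑ i ∈ range m, (51 / 50 : ℝ) ^ i *
        ∑ w : V, if G.Adj y w ∧ w ≠ x then kf G M z Kd i w else 0 := by
    have h5 : ∀ w : V, (if G.Adj y w ∧ w ≠ x then
        (∑ i ∈ range m, (51 / 50 : ℝ) ^ i * kf G M z Kd i w) else 0) =
        ∑ i ∈ range m, (51 / 50 : ℝ) ^ i *
          (if G.Adj y w ∧ w ≠ x then kf G M z Kd i w else 0) := by
      intro w
      split_ifs with h
      · rfl
      · simp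
    rw [sum_congr rfl fun w _ => h5 w, sum_comm]
    refine sum_congr rfl fun i _ => ?_
    rw [mul_sum]
  have h6 : (100 / 51 : ℝ) * gz G M z Kd m x ≤ ∑ i ∈ range m, (51 / 50 : ℝ) ^ i *
        ∑ w : V, if G.Adj y w ∧ w ≠ x then kf G M z Kd i w else 0 := by
    rw [n3_gz_matched hxy, mul_sum]
    refine sum_le_sum fun i _ => ?_
    have h7 := n3_kf_succ_le (Kd := Kd) hM hz hxy i
    have h8 : (0 : ℝ) ≤ (51 / 50 : ℝ) ^ i := by positivity
    calc (100 / 51 : ℝ) * ((51 / 50 : ℝ) ^ (i + 1) * kf G M z Kd (i + 1) x)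
        = (51 / 50 : ℝ) ^ i * (2 * kf G M z Kd (i + 1) x) := by rw [pow_succ]; ring
      _ ≤ _ := mul_le_mul_of_nonneg_left h7 h8
  rw [h1]
  have h9 : (151 / 51 : ℝ) * gz G M z Kd m x =
      gz G M z Kd m x + 100 / 51 * gz G M z Kd m x := by ring
  rw [h9]
  have := h4 ▸ h3
  linarith

theorem n3_gz_energy (hM : IsMat G M) (m : ℕ) (z : V → ℝ) (Kd : V → Prop)
    (hz : ∀ v, 0 ≤ z v) :
    (151 / 51 : ℝ) ^ 2 * ((∑ x, (gz G M z Kd m x) ^ 2) - ((unm M).card : ℝ)) ≤
      ∑ y, (nsum G (gz G M z Kd m) y) ^ 2 := by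
  set U := unm M with hU
  set R := (univ : Finset V).filter fun x => ¬ Unm M x with hR
  have hsplit : ∑ x, (gz G M z Kd m x) ^ 2 = (∑ x ∈ U, (gz G M z Kd m x) ^ 2) +
      ∑ x ∈ R, (gz G M z Kd m x) ^ 2 := by
    rw [hU, hR, unm, sum_filter_add_sum_filter_not]
  have hUle : ∑ x ∈ U, (gz G M z Kd m x) ^ 2 ≤ (U.card : ℝ) := by
    rw [← nsmul_one, ← sum_const]
    refine sum_le_sum fun x hx => ?_
    rw [hU, unm, mem_filter] at hx
    rw [n3_gz_unm hx.2]
    have h1 := n3_kf_zero_le (G := G) (M := M) (z := z) (Kd := Kd) x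
    have h0 := n3_kf_nonneg (G := G) (M := M) z Kd 0 x
    nlinarith
  have hex : ∀ x ∈ R, ∃ y, M.Adj x y := by
    intro x hx
    rw [hR, mem_filter] at hx
    have h2 := hx.2
    unfold Unm at h2
    push Not at h2
    exact h2
  have hR' : (151 / 51 : ℝ) ^ 2 * ∑ x ∈ R, (gz G M z Kd m x) ^ 2 ≤
      ∑ y, (nsum G (gz G M z Kd m) y) ^ 2 := by
    obtain ⟨π, hπ⟩ : ∃ π : V → V, ∀ x ∈ R, M.Adj x (π x) := by
      refine ⟨fun x => if h : ∃ y, M.Adj x y then h.choose else x, fun x hx => ?_⟩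
      have h := hex x hx
      dsimp only
      rw [dif_pos h]
      exact h.choose_spec
    have hinj : Set.InjOn π R := by
      intro a ha b hb hab
      have h1 := hπ a ha
      have h2 := hπ b hb
      rw [hab] at h1
      exact hM.uniq (π b) a b h1.symm h2.symm
    calc (151 / 51 : ℝ) ^ 2 * ∑ x ∈ R, (gz G M z Kd m x) ^ 2
        = ∑ x ∈ R, ((151 / 51 : ℝ) * gz G M z Kd m x) ^ 2 := by
          rw [mul_sum]
          refine sum_congr rfl fun x _ => ?_
          ring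
      _ ≤ ∑ x ∈ R, (nsum G (gz G M z Kd m) (π x)) ^ 2 := by
          refine sum_le_sum fun x hx => ?_
          have h1 := n3_nsum_partner (Kd := Kd) hM m hz (hπ x hx)
          have h0 := n3_gz_nonneg (G := G) (M := M) z Kd m x
          have h2 : 0 ≤ (151 / 51 : ℝ) * gz G M z Kd m x := by positivity
          exact pow_le_pow_left₀ h2 h1 2
      _ = ∑ y ∈ R.image π, (nsum G (gz G M z Kd m) y) ^ 2 := by
          rw [sum_image hinj]
      _ ≤ ∑ y, (nsum G (gz G M z Kd m) y) ^ 2 := by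
          exact sum_le_sum_of_subset_of_nonneg (subset_univ _) fun y _ _ => sq_nonneg _
  have h3 : (151 / 51 : ℝ) ^ 2 * ((∑ x, (gz G M z Kd m x) ^ 2) - (U.card : ℝ)) ≤
      (151 / 51 : ℝ) ^ 2 * ∑ x ∈ R, (gz G M z Kd m x) ^ 2 := by
    refine mul_le_mul_of_nonneg_left ?_ (by positivity)
    rw [hsplit]
    linarith
  exact h3.trans hR'

end NM72
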