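import Pool.Agent.NM72.Doubling

set_option autoImplicit false

/-!
Version 3 of the rule: the weights of the augmenting paths start from `thr` and are doubled
`O(log m)` times.
-/

namespace NM72

open Finset Classical NM70
open NM71 (cc ld pld)

variable {V : Type*} [Fintype V]

/-- The number of labels. -/
def ND (m : ℕ) : ℕ := 6 * TT m

/-- The path `p` is proposed. -/
def Prp (G M : SimpleGraph V) (m : ℕ) (lam : PT V → ℕ) (p : PT V) : Prop :=
  p ∈ augs G M m ∧ lam p < WF G M m p

/-- The path `p` is selected. -/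
def Sel (G M : SimpleGraph V) (m : ℕ) (lam : PT V → ℕ) (p : PT V) : Prop :=
  Prp G M m lam p ∧ ∀ p', Prp G M m lam p' → p' ≠ p → ∀ v ∈ vs p, v ∉ vs p'

/-- One round: augment along all selected paths. -/
def step (G M : SimpleGraph V) (m : ℕ) (lam : PT V → ℕ) : SimpleGraph V :=
  SimpleGraph.fromRel fun a b =>
    (M.Adj a b ∧ ∀ p, Sel G M m lam p → a ∉ vs p ∧ b ∉ vs p) ∨
      ∃ p, Sel G M m lam p ∧ newP p a b

/-- The matching after `t` rounds. -/
noncomputable def Mt (G : SimpleGraph V) (m : ℕ) (lam : ℕ → PT V → ℕ) : ℕ → SimpleGraph V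
  | 0 => ⊥
  | t + 1 => step G (Mt G m lam t) m (lam t)

/-- The radius of one round. -/
def rad (m : ℕ) : ℕ := (4 * m + 2) * (KD m + 2)

/-- The test function of the random matching. -/
noncomputable def gg (G M : SimpleGraph V) (m : ℕ) (x : V) : ℝ := g3 G M (zz G M m) m x

end NM72
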