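import Pool.Agent.NM71.Natural
import Pool.Agent.NM72.Rule

set_option autoImplicit false

/-! V3: the rule is local and natural. -/

namespace NM72

open Finset Classical NM70
open NM71 (cc ld pld)

variable {V : Type*} [Fintype V] {G M M' : SimpleGraph V}
variable {σ : Equiv.Perm V} {S : Set V} {k : ℕ}

/-! ### Loads -/

/-- The weights after `j` doubling steps are natural. -/
theorem n6_WW (h : H6 G M M' σ S k) {m : ℕ} (j : ℕ) : ∀ p ∈ augs G M m,
    p.1.1 ∈ core G S (k + (2 * m + (4 * m + 1) * j)) →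
    p.1.2 ∈ core G S (k + (2 * m + (4 * m + 1) * j)) →
      WW G M' m j (pmap σ p) = WW G M m j p := by
  induction j with
  | zero =>
    intro p _ h1 h2
    exact h6_thr h (core_anti (by omega) h1) (core_anti (by omega) h2)
  | succ j ih =>
    intro p hp h1 h2
    have e : k + (2 * m + (4 * m + 1) * (j + 1)) =
        k + (2 * m + (4 * m + 1) * j) + (4 * m + 1) := by ring
    rw [e] at h1 h2
    have h3 := NM71.d2_pld h (a := 2 * m + (4 * m + 1) * j) (Nat.le_add_right _ _) ih hp h1 h2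
    have h4 := ih p hp (core_anti (Nat.le_add_right _ _) h1) (core_anti (Nat.le_add_right _ _) h2)
    show (if pld G M' m (WW G M' m j) (pmap σ p) < TT m then 2 * WW G M' m j (pmap σ p)
      else WW G M' m j (pmap σ p)) = if pld G M m (WW G M m j) p < TT m then
        2 * WW G M m j p else WW G M m j p
    rw [h3, h4]

/-- The depth needed for the final weights. -/
def d2r (m : ℕ) : ℕ := 2 * m + (4 * m + 1) * KD m

theorem d2r_le (m : ℕ) : d2r m + (6 * m + 3) ≤ rad m := by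
  unfold d2r rad
  nlinarith

theorem d2r_ge (m : ℕ) : 2 * m ≤ d2r m := Nat.le_add_right _ _

theorem n6_WF (h : H6 G M M' σ S k) {m : ℕ} : ∀ p ∈ augs G M m,
    p.1.1 ∈ core G S (k + d2r m) → p.1.2 ∈ core G S (k + d2r m) →
      WF G M' m (pmap σ p) = WF G M m p :=
  n6_WW h (KD m)

theorem n6_zz (h : H6 G M M' σ S k) {m : ℕ} {v : V}
    (hv : v ∈ core G S (k + d2r m + (2 * m + 1))) : zz G M' m (σ v) = zz G M m v := by
  unfold zz
  rw [NM71.d2_ld h (d2r_ge m) (n6_WF h) hv]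

/-! ### The killed vertices -/

theorem n6_LL (h : H6 G M M' σ S k) {m : ℕ} {z z' : V → ℝ} {x : V}
    (hx : x ∈ core G S (k + 2 * m)) (hz : ∀ v, Near G (2 * m) x v → z' (σ v) = z v) :
    LL G M' m z' (σ x) = LL G M m z x := by
  unfold LL Ls
  refine (Finset.sum_nbij' (fun l => l.map σ) (fun l => l.map σ.symm) ?_ ?_ ?_ ?_ ?_).symm
  · intro l hl
    obtain ⟨h1, h2⟩ := Finset.mem_filter.1 hl
    refine Finset.mem_filter.2 ⟨(h6_HH h hx l).2 h1, ?_⟩
    rw [NM71.d2_cc fun v hv => hz v (h6_near_HH h.hM h1 hv)]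
    exact h2
  · intro l' hl'
    obtain ⟨h1, h2⟩ := Finset.mem_filter.1 hl'
    rw [← h6_map_symm σ l'] at h1 h2
    have h3 := (h6_HH h hx _).1 h1
    refine Finset.mem_filter.2 ⟨h3, ?_⟩
    rw [NM71.d2_cc fun v hv => hz v (h6_near_HH h.hM h3 hv)] at h2
    exact h2
  · intro l _
    exact h6_map_symm' σ l
  · intro l _
    exact h6_map_symm σ l
  · intro l _
    exact (h6_wt_map m σ l).symm

theorem n6_Gd (h : H6 G M M' σ S k) {m : ℕ} {z z' : V → ℝ} {x : V}
    (hx : x ∈ core G S (k + 2 * m)) (hz : ∀ v, Near G (2 * m) x v → z' (σ v) = z v) :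
    Gd G M' m z' (σ x) ↔ Gd G M m z x := by
  unfold Gd
  rw [h6_Phi h hx, n6_LL h hx hz]

theorem n6_KK3 (h : H6 G M M' σ S k) {m : ℕ} {z z' : V → ℝ} {x : V}
    (hx : x ∈ core G S (k + 2 * m + 1)) (hz : ∀ v, Near G (2 * m + 1) x v → z' (σ v) = z v) :
    KK3 G M' m z' (σ x) ↔ KK3 G M m z x := by
  have hx0 : x ∈ core G S (k + 2 * m) := core_anti (by omega) hx
  have hz0 : ∀ v, Near G (2 * m) x v → z' (σ v) = z v := fun v hv => hz v (hv.mono (by omega))
  have key : ∀ y, G.Adj x y → (Gd G M' m z' (σ y) ↔ Gd G M m z y) ∧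
      LL G M' m z' (σ y) = LL G M m z y := by
    intro y hxy
    have hy : y ∈ core G S (k + 2 * m) := h6_core_adj (by omega) hx hxy
    have hzy : ∀ v, Near G (2 * m) y v → z' (σ v) = z v := fun v hv =>
      hz v (((h6_near_one hxy).trans hv).mono (by omega))
    exact ⟨n6_Gd h hy hzy, n6_LL h hy hzy⟩
  unfold KK3
  rw [n6_Gd h hx0 hz0, n6_LL h hx0 hz0]
  refine or_congr Iff.rfl ?_
  constructor
  · rintro ⟨y', h1, h2, h3, h4⟩
    obtain ⟨y, rfl⟩ := σ.surjective y'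
    have hxy : G.Adj x y := (h.hG x (h6_core_S hx) y).2 h1
    rw [(key y hxy).1] at h3
    rw [(key y hxy).2] at h4
    exact ⟨y, hxy, fun hm => h2 ((h.hMM x (core_anti (by omega) hx) y).1 hm), h3, h4⟩
  · rintro ⟨y, h1, h2, h3, h4⟩
    rw [← (key y h1).1] at h3
    rw [← (key y h1).2] at h4
    exact ⟨σ y, (h.hG x (h6_core_S hx) y).1 h1,
      fun hm => h2 ((h.hMM x (core_anti (by omega) hx) y).2 hm), h3, h4⟩

/-! ### The test function -/

omit [Fintype V] in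
theorem n6_hk {Kd Kd' : V → Prop} : ∀ {l : List V}, (∀ v ∈ l, (Kd' (σ v) ↔ Kd v)) →
    (hk Kd' (l.map σ) ↔ hk Kd l)
  | [], _ => Iff.rfl
  | [x], h => not_congr (h x (by simp))
  | x :: y :: l, h =>
    and_congr (not_congr (h x (by simp))) (n6_hk fun v hv => h v (by simp [hv]))

theorem n6_kf (h : H6 G M M' σ S k) {z z' : V → ℝ} {Kd Kd' : V → Prop} {i : ℕ} {x : V}
    (hx : x ∈ core G S (k + 2 * i)) (hz : ∀ v, Near G (2 * i) x v → z' (σ v) = z v)
    (hK : ∀ v, Near G (2 * i) x v → (Kd' (σ v) ↔ Kd v)) :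
    kf G M' z' Kd' i (σ x) = kf G M z Kd i x := by
  unfold kf
  have e : (lv G M' z' Kd' i (σ x)).card = (lv G M z Kd i x).card := by
    refine (Finset.card_nbij' (fun l => l.map σ) (fun l => l.map σ.symm) ?_ ?_ ?_ ?_).symm
    · intro l hl
      obtain ⟨h1, h2, h3⟩ := Finset.mem_filter.1 hl
      refine Finset.mem_filter.2 ⟨(h6_halves h i hx l).2 h1, ?_, ?_⟩
      · rw [NM71.d2_cc fun v hv => hz v (h6_near h.hM i h1 hv)]
        exact h2
      · exact (n6_hk fun v hv => hK v (h6_near h.hM i h1 hv)).2 h3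
    · intro l' hl'
      obtain ⟨h1, h2, h4⟩ := Finset.mem_filter.1 hl'
      rw [← h6_map_symm σ l'] at h1 h2 h4
      have h3 := (h6_halves h i hx _).1 h1
      refine Finset.mem_filter.2 ⟨h3, ?_, ?_⟩
      · rw [NM71.d2_cc fun v hv => hz v (h6_near h.hM i h3 hv)] at h2
        exact h2
      · exact (n6_hk fun v hv => hK v (h6_near h.hM i h3 hv)).1 h4
    · intro l _
      exact h6_map_symm' σ l
    · intro l _
      exact h6_map_symm σ l
  rw [e]

/-- The test function is natural under local isomorphisms. -/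
theorem gg_resp (hM : ∀ x y, M.Adj x y → G.Adj x y) (hM' : ∀ x y, M'.Adj x y → G.Adj x y)
    (σ : Equiv.Perm V) (S : Set V) (hG : ∀ x ∈ S, ∀ y, G.Adj x y ↔ G.Adj (σ x) (σ y)) (k : ℕ)
    (hMM : ∀ x ∈ core G S k, ∀ y, M.Adj x y ↔ M'.Adj (σ x) (σ y)) (m : ℕ) :
    ∀ x ∈ core G S (k + rad m), gg G M m x = gg G M' m (σ x) := by
  intro x hx
  have h : H6 G M M' σ S k := ⟨hM, hM', hG, hMM⟩
  have hr := d2r_le m
  unfold gg g3 gz
  refine Finset.sum_congr rfl fun i hi => ?_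
  have hi' := Finset.mem_range.1 hi
  have hi2 : 2 * i ≤ 2 * m := by omega
  have hzz : ∀ v, Near G (4 * m + 1) x v → zz G M' m (σ v) = zz G M m v := by
    intro v hv
    have hx2 : x ∈ core G S (k + d2r m + (2 * m + 1) + (4 * m + 1)) := core_anti (by omega) hx
    exact n6_zz h (core_near hx2 hv)
  have hKK : ∀ v, Near G (2 * m) x v →
      (KK3 G M' m (zz G M' m) (σ v) ↔ KK3 G M m (zz G M m) v) := by
    intro v hv
    have hx2 : x ∈ core G S (k + 2 * m + 1 + 2 * m) := core_anti (by omega) hx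
    exact n6_KK3 h (core_near hx2 hv) fun w hw => hzz w ((hv.trans hw).mono (by omega))
  rw [n6_kf h (core_anti (by omega) hx) (fun v hv => hzz v (hv.mono (by omega)))
    (fun v hv => hKK v (hv.mono hi2))]

/-! ### Selected paths -/

theorem n6_Prp (h : H6 G M M' σ S k) {lam lam' : PT V → ℕ} (hl : H6L σ S lam lam') {m : ℕ}
    {p : PT V} (h1 : p.1.1 ∈ core G S (k + d2r m)) (h2 : p.1.2 ∈ core G S (k + d2r m)) :
    Prp G M' m lam' (pmap σ p) ↔ Prp G M m lam p := by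
  have hr := d2r_ge m
  have h3 : p.1.1 ∈ core G S (k + 2 * m) := core_anti (by omega) h1
  have h4 : p.1.2 ∈ core G S (k + 2 * m) := core_anti (by omega) h2
  unfold Prp
  rw [h6_augs h h3 h4]
  refine and_congr_right fun hp => ?_
  rw [n6_WF h p hp h1 h2, hl p (h6_core_S h1) fun v hv => h6_core_S (h6_vs_core h.hM hp h3 h4 hv)]

theorem n6_Sel (h : H6 G M M' σ S k) {lam lam' : PT V → ℕ} (hl : H6L σ S lam lam') {m : ℕ}
    {p : PT V} (h1 : p.1.1 ∈ core G S (k + d2r m)) (h2 : p.1.2 ∈ core G S (k + d2r m))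
    (hv : ∀ v ∈ vs p, v ∈ core G S (k + d2r m + (2 * m + 1))) :
    Sel G M' m lam' (pmap σ p) ↔ Sel G M m lam p := by
  unfold Sel
  rw [n6_Prp h hl h1 h2]
  refine and_congr_right fun _ => ?_
  constructor
  · intro hs q hq hqp v hvp hvq
    obtain ⟨h3, h4⟩ := h6_heads_core h.hM hq.1 hvq (hv v hvp)
    exact hs (pmap σ q) ((n6_Prp h hl h3 h4).2 hq) (fun e => hqp (h6_pmap_inj σ e)) (σ v)
      (h6_mem_pmap.2 hvp) (h6_mem_pmap.2 hvq)
  · intro hs q' hq' hqp v' hvp' hvq'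
    obtain ⟨v, rfl⟩ := σ.surjective v'
    obtain ⟨q, rfl⟩ : ∃ q, q' = pmap σ q := ⟨pmap σ.symm q', (h6_pmap_symm σ q').symm⟩
    have hvp := h6_mem_pmap.1 hvp'
    have hvq := h6_mem_pmap.1 hvq'
    obtain ⟨h3, h4⟩ := h6_heads_pull h hq'.1 hvq (hv v hvp)
    exact hs q ((n6_Prp h hl h3 h4).1 hq') (fun e => hqp (by rw [e])) v hvp hvq

theorem n6_Sel_at (h : H6 G M M' σ S k) {lam lam' : PT V → ℕ} (hl : H6L σ S lam lam') {m : ℕ}
    {p : PT V} {x : V} (hx : x ∈ core G S (k + d2r m + (6 * m + 2))) (hxp : x ∈ vs p) :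
    Sel G M' m lam' (pmap σ p) ↔ Sel G M m lam p := by
  have hr := d2r_ge m
  have hx' : x ∈ core G S (k + d2r m + (4 * m + 1) + (2 * m + 1)) := core_anti (by omega) hx
  have key : p ∈ augs G M m → (Sel G M' m lam' (pmap σ p) ↔ Sel G M m lam p) := by
    intro hp
    obtain ⟨h3, h4⟩ := h6_heads_core h.hM hp hxp hx'
    refine n6_Sel h hl (core_anti (by omega) h3) (core_anti (by omega) h4) fun v hv => ?_
    exact h6_vs_core h.hM hp (core_anti (by omega) h3) (core_anti (by omega) h4) hv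
  constructor
  · intro hs
    obtain ⟨h3, h4⟩ := h6_heads_pull h hs.1.1 hxp hx'
    exact (key ((h6_augs h (core_anti (by omega) h3) (core_anti (by omega) h4)).1 hs.1.1)).1 hs
  · intro hs
    exact (key hs.1.1).2 hs

/-! ### One round -/

/-- The relation whose symmetrisation is `step`. -/
def n6R (G M : SimpleGraph V) (m : ℕ) (lam : PT V → ℕ) (a b : V) : Prop :=
  (M.Adj a b ∧ ∀ p, Sel G M m lam p → a ∉ vs p ∧ b ∉ vs p) ∨
    ∃ p, Sel G M m lam p ∧ newP p a b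

theorem n6_step_adj {m : ℕ} {lam : PT V → ℕ} {a b : V} :
    (step G M m lam).Adj a b ↔ a ≠ b ∧ (n6R G M m lam a b ∨ n6R G M m lam b a) :=
  Iff.rfl

theorem n6_covered (h : H6 G M M' σ S k) {lam lam' : PT V → ℕ} (hl : H6L σ S lam lam') {m : ℕ}
    {x : V} (hx : x ∈ core G S (k + d2r m + (6 * m + 2))) :
    (∃ p, Sel G M' m lam' p ∧ σ x ∈ vs p) ↔ ∃ p, Sel G M m lam p ∧ x ∈ vs p := by
  constructor
  · rintro ⟨p', hs, hx'⟩
    obtain ⟨p, rfl⟩ : ∃ p, p' = pmap σ p := ⟨pmap σ.symm p', (h6_pmap_symm σ p').symm⟩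
    have hxp := h6_mem_pmap.1 hx'
    exact ⟨p, (n6_Sel_at h hl hx hxp).1 hs, hxp⟩
  · rintro ⟨p, hs, hxp⟩
    exact ⟨pmap σ p, (n6_Sel_at h hl hx hxp).2 hs, h6_mem_pmap.2 hxp⟩

theorem n6_R (h : H6 G M M' σ S k) {lam lam' : PT V → ℕ} (hl : H6L σ S lam lam') {m : ℕ}
    {a b : V} (hab : a ∈ core G S (k + d2r m + (6 * m + 3)) ∨
      b ∈ core G S (k + d2r m + (6 * m + 3))) :
    n6R G M' m lam' (σ a) (σ b) ↔ n6R G M m lam a b := by
  have hadj : M'.Adj (σ a) (σ b) ↔ M.Adj a b := by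
    rcases hab with ha | hb
    · exact (h.hMM a (core_anti (by omega) ha) b).symm
    · rw [SimpleGraph.adj_comm M', SimpleGraph.adj_comm M]
      exact (h.hMM b (core_anti (by omega) hb) a).symm
  refine or_congr ?_ ?_
  · rw [hadj]
    refine and_congr_right fun hm => ?_
    have hab2 : a ∈ core G S (k + d2r m + (6 * m + 2)) ∧
        b ∈ core G S (k + d2r m + (6 * m + 2)) := by
      rcases hab with ha | hb
      · exact ⟨core_anti (by omega) ha, h6_core_adj (by omega) ha (h.hM _ _ hm)⟩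
      · exact ⟨h6_core_adj (by omega) hb (h.hM _ _ hm).symm, core_anti (by omega) hb⟩
    have ha := n6_covered h hl hab2.1
    have hb := n6_covered h hl hab2.2
    constructor
    · intro hs p hp
      exact ⟨fun hx => (ha.2 ⟨p, hp, hx⟩).elim fun p' hp' => (hs p' hp'.1).1 hp'.2,
        fun hx => (hb.2 ⟨p, hp, hx⟩).elim fun p' hp' => (hs p' hp'.1).2 hp'.2⟩
    · intro hs p hp
      exact ⟨fun hx => (ha.1 ⟨p, hp, hx⟩).elim fun p' hp' => (hs p' hp'.1).1 hp'.2,
        fun hx => (hb.1 ⟨p, hp, hx⟩).elim fun p' hp' => (hs p' hp'.1).2 hp'.2⟩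
  · have hsel : ∀ p : PT V, a ∈ vs p → b ∈ vs p →
        (Sel G M' m lam' (pmap σ p) ↔ Sel G M m lam p) := by
      intro p hap hbp
      rcases hab with ha | hb
      · exact n6_Sel_at h hl (core_anti (by omega) ha) hap
      · exact n6_Sel_at h hl (core_anti (by omega) hb) hbp
    constructor
    · rintro ⟨p', hs, hn⟩
      obtain ⟨p, rfl⟩ : ∃ p, p' = pmap σ p := ⟨pmap σ.symm p', (h6_pmap_symm σ p').symm⟩
      obtain ⟨h1, h2⟩ := h6_newP_mem hs.1.1 hn
      exact ⟨p, (hsel p (h6_mem_pmap.1 h1) (h6_mem_pmap.1 h2)).1 hs, h6_newP.1 hn⟩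
    · rintro ⟨p, hs, hn⟩
      obtain ⟨h1, h2⟩ := h6_newP_mem hs.1.1 hn
      exact ⟨pmap σ p, (hsel p h1 h2).2 hs, h6_newP.2 hn⟩

/-- One round is natural under local isomorphisms. -/
theorem step_resp (hM : ∀ x y, M.Adj x y → G.Adj x y) (hM' : ∀ x y, M'.Adj x y → G.Adj x y)
    (σ : Equiv.Perm V) (S : Set V) (hG : ∀ x ∈ S, ∀ y, G.Adj x y ↔ G.Adj (σ x) (σ y)) (k : ℕ)
    (hMM : ∀ x ∈ core G S k, ∀ y, M.Adj x y ↔ M'.Adj (σ x) (σ y)) (m : ℕ)
    (lam lam' : PT V → ℕ)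
    (hlam : ∀ p : PT V, p.1.1 ∈ S → (∀ v ∈ vs p, v ∈ S) → lam' (pmap σ p) = lam p) :
    ∀ x ∈ core G S (k + rad m), ∀ y,
      (step G M m lam).Adj x y ↔ (step G M' m lam').Adj (σ x) (σ y) := by
  intro x hx y
  have h : H6 G M M' σ S k := ⟨hM, hM', hG, hMM⟩
  have hr := d2r_le m
  have hx' : x ∈ core G S (k + d2r m + (6 * m + 3)) := core_anti (by omega) hx
  rw [n6_step_adj, n6_step_adj, n6_R h hlam (Or.inl hx'), n6_R h hlam (Or.inr hx'),
    σ.injective.ne_iff]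

end NM72
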