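import Pool.Agent.NM72.EnergyGen

set_option autoImplicit false

/-! V3: the mass of the test function, with an arbitrary killed set. -/

namespace NM72

open Finset Classical NM70
open NM71 (cc liv c1_mem_liv c1_cc_cons c2_cc_nonneg c2_sum_halves_succ c2d c2d_eq c2_sum_nbr
  c2d_le_three c2d_le_two c2d_nonneg c2_cs c2_P_sq)

variable {V : Type*} [Fintype V] {G M : SimpleGraph V}

/-- The number of unmatched neighbours with small load. -/
noncomputable def u2 (G M : SimpleGraph V) (z : V → ℝ) (w : V) : ℝ :=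
  ∑ y : V, if G.Adj w y then (if Unm M y ∧ z y < 1 / 2 then (1 : ℝ) else 0) else 0

theorem n3_u2_nonneg (z : V → ℝ) (w : V) : 0 ≤ u2 G M z w := by
  unfold u2
  refine sum_nonneg fun y _ => ?_
  split_ifs <;> norm_num

/-- Lower bound for the number of extensions. -/
theorem n3_c2d_ge (hc : Cubic G) (hM : IsMat G M) {z : V → ℝ} (hz : ∀ v, 0 ≤ z v) (w : V) :
    2 - 2 * nsum G z w - u2 G M z w ≤ c2d G M w := by
  obtain ⟨a, b, c, hab, hac, hbc, ha, hb', hc', h⟩ := c2_sum_nbr hc w
  rw [c2d_eq hM, h]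
  unfold nsum u2
  rw [h, h]
  have key : ∀ y : V, (if ¬ M.Adj w y then (1 : ℝ) else 0) - 2 * z y -
      (if Unm M y ∧ z y < 1 / 2 then (1 : ℝ) else 0) ≤
      (if ¬ M.Adj w y ∧ ¬ Unm M y then (1 : ℝ) else 0) := by
    intro y
    have hzy := hz y
    have h0 : (0 : ℝ) ≤ (if Unm M y ∧ z y < 1 / 2 then (1 : ℝ) else 0) := by
      split_ifs <;> norm_num
    by_cases h1 : M.Adj w y
    · rw [if_neg (not_not.2 h1), if_neg fun h : ¬ M.Adj w y ∧ ¬ Unm M y => h.1 h1]
      linarith
    · rw [if_pos h1]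
      by_cases h2 : Unm M y
      · rw [if_neg fun h : ¬ M.Adj w y ∧ ¬ Unm M y => h.2 h2]
        by_cases h3 : z y < 1 / 2
        · rw [if_pos ⟨h2, h3⟩]
          linarith
        · rw [if_neg fun h => h3 h.2]
          push Not at h3
          linarith
      · rw [if_pos (⟨h1, h2⟩ : ¬ M.Adj w y ∧ ¬ Unm M y)]
        linarith
  have hone : (2 : ℝ) ≤ (if ¬ M.Adj w a then (1 : ℝ) else 0) + (if ¬ M.Adj w b then (1 : ℝ) else 0)
      + (if ¬ M.Adj w c then (1 : ℝ) else 0) := by
    by_cases h1 : M.Adj w a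
    · have h2 : ¬ M.Adj w b := fun h3 => hab (hM.uniq w a b h1 h3)
      have h3 : ¬ M.Adj w c := fun h4 => hac (hM.uniq w a c h1 h4)
      rw [if_neg (not_not.2 h1), if_pos h2, if_pos h3]
      norm_num
    · by_cases h2 : M.Adj w b
      · have h3 : ¬ M.Adj w c := fun h4 => hbc (hM.uniq w b c h2 h4)
        rw [if_pos h1, if_neg (not_not.2 h2), if_pos h3]
        norm_num
      · rw [if_pos h1, if_pos h2]
        have h4 : (0 : ℝ) ≤ (if ¬ M.Adj w c then (1 : ℝ) else 0) := by
          split_ifs <;> norm_num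
        linarith
  linarith [key a, key b, key c]

/-- The mass at level `i`. -/
noncomputable def c3A (G M : SimpleGraph V) (z : V → ℝ) (Kd : V → Prop) (i : ℕ) : ℝ :=
  ∑ w : V, kf G M z Kd i w

/-- The accumulated load at level `i`. -/
noncomputable def c3B (G M : SimpleGraph V) (z : V → ℝ) (Kd : V → Prop) (i : ℕ) : ℝ :=
  (∑ w : V, ∑ q ∈ lv G M z Kd i w, cc z q) / 2 ^ i

/-- The mass killed by the load at level `i + 1`. -/
noncomputable def c3K (G M : SimpleGraph V) (z : V → ℝ) (Kd : V → Prop) (i : ℕ) : ℝ :=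
  c3E G M z Kd i (fun x y q => if cc z (x :: y :: q) < 1 / 2 then 0 else 1) / 2 ^ (i + 1)

/-- The mass killed at a killed head at level `i + 1`. -/
noncomputable def c3H (G M : SimpleGraph V) (z : V → ℝ) (Kd : V → Prop) (i : ℕ) : ℝ :=
  c3E G M z Kd i (fun x y q => if cc z (x :: y :: q) < 1 / 2 ∧ Kd x then 1 else 0) / 2 ^ (i + 1)

/-- The new load at level `i + 1`. -/
noncomputable def c3Y (G M : SimpleGraph V) (z : V → ℝ) (Kd : V → Prop) (i : ℕ) : ℝ :=
  c3E G M z Kd i (fun x y _ => z x + z y) / 2 ^ (i + 1)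

theorem c3B_nonneg {z : V → ℝ} {Kd : V → Prop} (hz : ∀ v, 0 ≤ z v) (i : ℕ) :
    0 ≤ c3B G M z Kd i := by
  unfold c3B
  refine div_nonneg ?_ (by positivity)
  exact sum_nonneg fun w _ => sum_nonneg fun q _ => c2_cc_nonneg hz q

/-- The load inequality. -/
theorem c3_load {z : V → ℝ} {Kd : V → Prop} (hz : ∀ v, 0 ≤ z v) (i : ℕ) :
    1 / 2 * c3K G M z Kd i + c3B G M z Kd (i + 1) ≤
      c3Y G M z Kd i + c3E G M z Kd i (fun _ _ q => cc z q) / 2 ^ (i + 1) := by
  unfold c3K c3B c3Y
  rw [c3_exch hz i (cc z), mul_div_assoc', ← add_div, ← add_div]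
  refine div_le_div_of_nonneg_right ?_ (by positivity)
  rw [← c3E_smul, ← c3E_add, ← c3E_add]
  refine c3E_le fun x y q => ?_
  have h1 : cc z (x :: y :: q) = z x + (z y + cc z q) := by rw [c1_cc_cons, c1_cc_cons]
  have hx := hz x
  have hy := hz y
  have hq := c2_cc_nonneg hz q
  by_cases h : cc z (x :: y :: q) < 1 / 2
  · rw [if_pos h]
    by_cases hK : Kd x
    · rw [if_neg fun h' => h'.2 hK]
      linarith
    · rw [if_pos ⟨h, hK⟩, h1]
      linarith
  · rw [if_neg h, if_neg fun h' => h h'.1]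
    push Not at h
    rw [h1] at h
    linarith

theorem c3_load_zero (hc : Cubic G) (hM : IsMat G M) {z : V → ℝ} {Kd : V → Prop}
    (hz : ∀ v, 0 ≤ z v) :
    1 / 2 * c3K G M z Kd 0 + c3B G M z Kd 1 ≤ c3Y G M z Kd 0 + 3 / 2 * c3B G M z Kd 0 := by
  refine (c3_load hz 0).trans ?_
  have h1 : c3E G M z Kd 0 (fun _ _ q => cc z q) ≤
      3 * ∑ w : V, ∑ q ∈ lv G M z Kd 0 w, cc z q := by
    rw [c3E_const, mul_sum]
    refine sum_le_sum fun w _ => ?_
    rw [mul_sum]
    refine sum_le_sum fun q _ => ?_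
    rw [mul_comm]
    exact mul_le_mul_of_nonneg_right (c2d_le_three hc hM w) (c2_cc_nonneg hz q)
  unfold c3B
  rw [zero_add, pow_zero, pow_one, div_one]
  linarith

theorem c3_load_succ (hc : Cubic G) (hM : IsMat G M) {z : V → ℝ} {Kd : V → Prop}
    (hz : ∀ v, 0 ≤ z v) (i : ℕ) :
    1 / 2 * c3K G M z Kd (i + 1) + c3B G M z Kd (i + 2) ≤
      c3Y G M z Kd (i + 1) + c3B G M z Kd (i + 1) := by
  refine (c3_load hz (i + 1)).trans ?_
  have h1 : c3E G M z Kd (i + 1) (fun _ _ q => cc z q) ≤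
      2 * ∑ w : V, ∑ q ∈ lv G M z Kd (i + 1) w, cc z q := by
    rw [c3E_const, mul_sum]
    refine sum_le_sum fun w _ => ?_
    rw [mul_sum]
    refine sum_le_sum fun q hq => ?_
    obtain ⟨p, -, -, hp, -⟩ := mem_halves_succ.1 (n3_mem_lv.1 hq).1
    rw [mul_comm]
    exact mul_le_mul_of_nonneg_right (c2d_le_two hc hM hp) (c2_cc_nonneg hz q)
  unfold c3B
  have h2 : c3E G M z Kd (i + 1) (fun _ _ q => cc z q) / 2 ^ (i + 1 + 1) ≤
      (2 * ∑ w : V, ∑ q ∈ lv G M z Kd (i + 1) w, cc z q) / 2 ^ (i + 1 + 1) :=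
    div_le_div_of_nonneg_right h1 (by positivity)
  have h3 : (2 * ∑ w : V, ∑ q ∈ lv G M z Kd (i + 1) w, cc z q) / 2 ^ (i + 1 + 1) =
      (∑ w : V, ∑ q ∈ lv G M z Kd (i + 1) w, cc z q) / (2 : ℝ) ^ (i + 1) := by
    rw [pow_succ (2 : ℝ) (i + 1)]
    field_simp
  rw [h3] at h2
  linarith

theorem c3_kill_sum (hc : Cubic G) (hM : IsMat G M) {z : V → ℝ} {Kd : V → Prop}
    (hz : ∀ v, 0 ≤ z v) (k : ℕ) :
    1 / 2 * ∑ i ∈ range k, c3K G M z Kd i + c3B G M z Kd k ≤
      3 / 2 * c3B G M z Kd 0 + ∑ i ∈ range k, c3Y G M z Kd i := by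
  induction k with
  | zero =>
    rw [range_zero, sum_empty, sum_empty]
    have := c3B_nonneg (G := G) (M := M) (Kd := Kd) hz 0
    linarith
  | succ k ih =>
    rw [sum_range_succ, sum_range_succ]
    cases k with
    | zero =>
      rw [range_zero, sum_empty, sum_empty]
      have := c3_load_zero (Kd := Kd) hc hM hz
      linarith
    | succ k =>
      have := c3_load_succ (Kd := Kd) hc hM hz k
      linarith

/-- The mass inequality. -/
theorem c3_mass_step (hc : Cubic G) (hM : IsMat G M) {z : V → ℝ} {Kd : V → Prop}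
    (hz : ∀ v, 0 ≤ z v) (i : ℕ) :
    c3A G M z Kd i - (∑ w : V, kf G M z Kd i w * nsum G z w) -
      1 / 2 * (∑ w : V, kf G M z Kd i w * u2 G M z w) ≤
      c3A G M z Kd (i + 1) + c3K G M z Kd i + c3H G M z Kd i := by
  have h1 : c3A G M z Kd (i + 1) + c3K G M z Kd i + c3H G M z Kd i =
      c3E G M z Kd i (fun _ _ _ => (1 : ℝ)) / 2 ^ (i + 1) := by
    unfold c3A c3K c3H kf
    rw [← sum_div, ← add_div, ← add_div]
    congr 1
    have h2 : ∑ w : V, ((lv G M z Kd (i + 1) w).card : ℝ) =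
        ∑ w : V, ∑ q ∈ lv G M z Kd (i + 1) w, (1 : ℝ) := by
      refine sum_congr rfl fun w _ => ?_
      rw [sum_const, nsmul_one]
    rw [h2, c3_exch hz i (fun _ => (1 : ℝ)), ← c3E_add, ← c3E_add]
    congr 1
    funext x y q
    by_cases h : cc z (x :: y :: q) < 1 / 2
    · by_cases hK : Kd x
      · rw [if_neg fun h' => h'.2 hK, if_pos h, if_pos ⟨h, hK⟩]
        norm_num
      · rw [if_pos ⟨h, hK⟩, if_pos h, if_neg fun h' => hK h'.2]
        norm_num
    · rw [if_neg fun h' => h h'.1, if_neg h, if_neg fun h' => h h'.1]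
      norm_num
  rw [h1, c3E_const z Kd i (fun _ => (1 : ℝ))]
  unfold c3A
  rw [mul_sum, ← sum_sub_distrib, ← sum_sub_distrib, sum_div]
  refine sum_le_sum fun w _ => ?_
  rw [sum_const, one_mul, nsmul_eq_mul]
  unfold kf
  have h3 := n3_c2d_ge hc hM hz w
  have h4 : ((lv G M z Kd i w).card : ℝ) / 2 ^ i - ((lv G M z Kd i w).card : ℝ) / 2 ^ i *
      nsum G z w - 1 / 2 * (((lv G M z Kd i w).card : ℝ) / 2 ^ i * u2 G M z w) =
      ((lv G M z Kd i w).card : ℝ) * (2 - 2 * nsum G z w - u2 G M z w) / 2 ^ (i + 1) := by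
    rw [pow_succ]
    field_simp
  rw [h4]
  refine div_le_div_of_nonneg_right ?_ (by positivity)
  exact mul_le_mul_of_nonneg_left h3 (by positivity)

theorem c3_mass_sum (hc : Cubic G) (hM : IsMat G M) {z : V → ℝ} {Kd : V → Prop}
    (hz : ∀ v, 0 ≤ z v) (k : ℕ) :
    c3A G M z Kd 0 - (∑ i ∈ range k, ∑ w : V, kf G M z Kd i w * nsum G z w) -
      1 / 2 * (∑ i ∈ range k, ∑ w : V, kf G M z Kd i w * u2 G M z w) -
      (∑ i ∈ range k, c3K G M z Kd i) - ∑ i ∈ range k, c3H G M z Kd i ≤ c3A G M z Kd k := by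
  induction k with
  | zero => simp
  | succ k ih =>
    rw [sum_range_succ, sum_range_succ, sum_range_succ, sum_range_succ]
    have h1 := c3_mass_step (Kd := Kd) hc hM hz k
    linarith

theorem n3_kf_le {z : V → ℝ} {Kd : V → Prop} (i : ℕ) (x : V) :
    kf G M z Kd i x ≤ NM71.kf G M z i x := by
  unfold kf NM71.kf
  refine div_le_div_of_nonneg_right ?_ (by positivity)
  have h : (lv G M z Kd i x).card ≤ (liv G M z i x).card := card_le_card n3_lv_sub
  exact_mod_cast h

/-- The mass killed at killed heads. -/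
theorem c3H_le {z : V → ℝ} {Kd : V → Prop} (hz : ∀ v, 0 ≤ z v) (i : ℕ) :
    c3H G M z Kd i ≤ ∑ x ∈ univ.filter Kd, NM71.kf G M z (i + 1) x := by
  set Ψ : List V → ℝ := fun q => if ∃ v, q.head? = some v ∧ Kd v then 1 else 0 with hΨ
  have h1 : c3E G M z Kd i (fun x y q => if cc z (x :: y :: q) < 1 / 2 ∧ Kd x then 1 else 0) ≤
      NM71.c2E G M z i (fun x y q => if cc z (x :: y :: q) < 1 / 2 then
        Ψ (x :: y :: q) else 0) := by
    refine (c3E_le_c2E fun x y q => ?_).trans (NM71.c2E_le fun x y q => ?_)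
    · split_ifs <;> norm_num
    · rw [hΨ]
      dsimp only
      by_cases h : cc z (x :: y :: q) < 1 / 2
      · by_cases hK : Kd x
        · rw [if_pos ⟨h, hK⟩, if_pos h, if_pos ⟨x, rfl, hK⟩]
        · rw [if_neg fun h' => hK h'.2, if_pos h]
          split_ifs <;> norm_num
      · rw [if_neg fun h' => h h'.1, if_neg h]
  rw [← NM71.c2_exch hz i Ψ] at h1
  unfold c3H
  refine (div_le_div_of_nonneg_right h1 (by positivity)).trans (le_of_eq ?_)
  have h2 : ∀ x : V, ∑ q ∈ liv G M z (i + 1) x, Ψ q =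
      if Kd x then ((liv G M z (i + 1) x).card : ℝ) else 0 := by
    intro x
    have h3 : ∀ q ∈ liv G M z (i + 1) x, Ψ q = if Kd x then 1 else 0 := by
      intro q hq
      have h4 := halves_head (c1_mem_liv.1 hq).1
      rw [hΨ]
      dsimp only
      by_cases hK : Kd x
      · rw [if_pos ⟨x, h4, hK⟩, if_pos hK]
      · rw [if_neg, if_neg hK]
        rintro ⟨v, hv, hKv⟩
        rw [h4] at hv
        rw [← Option.some.inj hv] at hKv
        exact hK hKv
    rw [sum_congr rfl h3, sum_const]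
    split_ifs <;> simp
  rw [sum_congr rfl fun x _ => h2 x, sum_div, sum_filter]
  refine sum_congr rfl fun x _ => ?_
  split_ifs
  · rfl
  · simp

theorem c3_start {z : V → ℝ} {Kd : V → Prop} (hz : ∀ v, 0 ≤ z v) :
    ((unm M).card : ℝ) - 2 * ∑ u ∈ unm M, z u + 2 * c3B G M z Kd 0 -
      (∑ x ∈ univ.filter Kd, NM71.kf G M z 0 x) ≤ c3A G M z Kd 0 ∧
      c3B G M z Kd 0 ≤ ∑ u ∈ unm M, z u := by
  have hcc : ∀ x : V, cc z [x] = z x := by
    intro x
    unfold cc
    simp
  have hliv : ∀ x : V, Unm M x → z x < 1 / 2 → liv G M z 0 x = {[x]} := by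
    intro x hx hzx
    ext q
    rw [c1_mem_liv, mem_halves_zero, mem_singleton]
    constructor
    · exact fun h => h.1.2
    · rintro rfl
      exact ⟨⟨hx, rfl⟩, by rw [hcc]; exact hzx⟩
  have hlv1 : ∀ x : V, Unm M x → z x < 1 / 2 → ¬ Kd x → lv G M z Kd 0 x = {[x]} := by
    intro x hx hzx hK
    ext q
    rw [n3_mem_lv, mem_halves_zero, mem_singleton]
    constructor
    · exact fun h => h.1.2
    · rintro rfl
      exact ⟨⟨hx, rfl⟩, by rw [hcc]; exact hzx, hK⟩
  have hlv2 : ∀ x : V, ¬ (Unm M x ∧ z x < 1 / 2 ∧ ¬ Kd x) → lv G M z Kd 0 x = ∅ := by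
    intro x hx
    refine eq_empty_of_forall_notMem fun q hq => hx ?_
    have hK := n3_head hq
    obtain ⟨h1, h2, -⟩ := n3_mem_lv.1 hq
    obtain ⟨h3, rfl⟩ := mem_halves_zero.1 h1
    rw [hcc] at h2
    exact ⟨h3, h2, hK⟩
  have hU : ∀ F : V → ℝ, ∑ u ∈ unm M, F u = ∑ u : V, if Unm M u then F u else 0 := by
    intro F
    rw [unm, sum_filter]
  have hcard : ((unm M).card : ℝ) = ∑ u : V, if Unm M u then (1 : ℝ) else 0 := by
    rw [← hU, sum_const, nsmul_one]
  rw [hcard, hU, sum_filter]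
  unfold c3A c3B
  rw [pow_zero, div_one]
  constructor
  · rw [mul_sum, mul_sum, ← sum_sub_distrib, ← sum_add_distrib, ← sum_sub_distrib]
    refine sum_le_sum fun x _ => ?_
    have hk0 := NM71.kf_nonneg (G := G) (M := M) z 0 x
    have hzx := hz x
    unfold kf
    rw [pow_zero, div_one]
    have hnn : (0 : ℝ) ≤ (if Kd x then NM71.kf G M z 0 x else 0) := by
      split_ifs
      · exact hk0
      · exact le_rfl
    by_cases h1 : Unm M x
    · rw [if_pos h1, if_pos h1]
      by_cases h2 : z x < 1 / 2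
      · by_cases hK : Kd x
        · rw [hlv2 x fun h => h.2.2 hK, if_pos hK]
          have h5 : NM71.kf G M z 0 x = 1 := by
            unfold NM71.kf
            rw [hliv x h1 h2, card_singleton]
            norm_num
          rw [h5]
          simp only [sum_empty, card_empty, Nat.cast_zero]
          linarith
        · rw [hlv1 x h1 h2 hK, sum_singleton, hcc, card_singleton]
          push_cast
          linarith
      · rw [hlv2 x fun h => h2 h.2.1]
        simp only [sum_empty, card_empty, Nat.cast_zero]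
        push Not at h2
        linarith
    · rw [if_neg h1, if_neg h1, hlv2 x fun h => h1 h.1]
      simp only [sum_empty, card_empty, Nat.cast_zero]
      linarith
  · refine sum_le_sum fun x _ => ?_
    have hzx := hz x
    by_cases h1 : Unm M x
    · rw [if_pos h1]
      by_cases h2 : z x < 1 / 2 ∧ ¬ Kd x
      · rw [hlv1 x h1 h2.1 h2.2, sum_singleton, hcc]
      · rw [hlv2 x fun h => h2 h.2, sum_empty]
        exact hzx
    · rw [if_neg h1, hlv2 x fun h => h1 h.1, sum_empty]

theorem n3_gz_mass (hc : Cubic G) (hM : IsMat G M) (m : ℕ) (z : V → ℝ) (Kd : V → Prop)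
    (hz : ∀ v, 0 ≤ z v) (e1 e2 : ℝ)
    (he1 : ∑ x ∈ univ.filter Kd, ∑ i ∈ range (m + 1), NM71.kf G M z i x ≤ e1)
    (he2 : ∑ i ∈ range m, ∑ w : V, NM71.kf G M z i w * u2 G M z w ≤ 2 * e2) :
    (51 / 50 : ℝ) ^ m * (((unm M).card : ℝ) - e1 - e2 -
        3 * Real.sqrt ((∑ v, (z v) ^ 2) * ((unm M).card : ℝ)) -
        3 * Real.sqrt ((∑ v, (z v) ^ 2) * ∑ y, (nsum G (gz G M z Kd m) y) ^ 2)) ≤
      ∑ x, gz G M z Kd m x := by
  set Z2 := ∑ v, (z v) ^ 2 with hZ2
  set S2 := ∑ y, (nsum G (gz G M z Kd m) y) ^ 2 with hS2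
  have hZ0 : 0 ≤ Z2 := sum_nonneg fun v _ => sq_nonneg _
  -- the truncated test function
  set F : V → ℝ := fun w => ∑ i ∈ range m, kf G M z Kd i w with hF
  have hF0 : ∀ w, 0 ≤ F w := fun w => sum_nonneg fun i _ => n3_kf_nonneg z Kd i w
  have hFg : ∀ w, F w ≤ gz G M z Kd m w := by
    intro w
    unfold gz
    rw [sum_range_succ, hF]
    have h1 : ∑ i ∈ range m, kf G M z Kd i w ≤
        ∑ i ∈ range m, (51 / 50 : ℝ) ^ i * kf G M z Kd i w := by
      refine sum_le_sum fun i _ => ?_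
      have h2 : (1 : ℝ) ≤ (51 / 50 : ℝ) ^ i := one_le_pow₀ (by norm_num)
      have h3 := n3_kf_nonneg (G := G) (M := M) z Kd i w
      nlinarith
    have h3 : 0 ≤ (51 / 50 : ℝ) ^ m * kf G M z Kd m w :=
      mul_nonneg (by positivity) (n3_kf_nonneg z Kd m w)
    dsimp only
    linarith
  have hns : ∀ y, nsum G F y ≤ nsum G (gz G M z Kd m) y := by
    intro y
    unfold nsum
    refine sum_le_sum fun w _ => ?_
    split_ifs
    · exact hFg w
    · exact le_rfl
  have hns0 : ∀ y, 0 ≤ nsum G F y := by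
    intro y
    unfold nsum
    refine sum_nonneg fun w _ => ?_
    split_ifs
    · exact hF0 w
    · exact le_rfl
  have hSF : ∑ y, (nsum G F y) ^ 2 ≤ S2 := by
    refine sum_le_sum fun y _ => ?_
    exact pow_le_pow_left₀ (hns0 y) (hns y) 2
  have hSF0 : 0 ≤ ∑ y, (nsum G F y) ^ 2 := sum_nonneg fun y _ => sq_nonneg _
  -- the loss
  have hloss : ∑ i ∈ range m, ∑ w : V, kf G M z Kd i w * nsum G z w ≤ Real.sqrt (Z2 * S2) := by
    have h1 : ∑ i ∈ range m, ∑ w : V, kf G M z Kd i w * nsum G z w =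
        ∑ v, z v * nsum G F v := by
      rw [sum_comm]
      have h2 : ∀ w : V, ∑ i ∈ range m, kf G M z Kd i w * nsum G z w = ∑ v : V,
          if G.Adj w v then F w * z v else 0 := by
        intro w
        rw [← sum_mul]
        unfold nsum
        rw [mul_sum]
        refine sum_congr rfl fun v _ => ?_
        split_ifs
        · rfl
        · simp
      rw [sum_congr rfl fun w _ => h2 w, sum_comm]
      refine sum_congr rfl fun v _ => ?_
      unfold nsum
      rw [mul_sum]
      refine sum_congr rfl fun w _ => ?_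
      by_cases h : G.Adj w v
      · rw [if_pos h, if_pos h.symm]
        ring
      · rw [if_neg h, if_neg fun h' => h h'.symm]
        simp
    rw [h1]
    refine (c2_cs z (nsum G F)).trans (Real.sqrt_le_sqrt ?_)
    exact mul_le_mul_of_nonneg_left hSF hZ0
  -- the new load
  have hY : ∑ i ∈ range m, c3Y G M z Kd i ≤ Real.sqrt (Z2 * S2) := by
    set P : V → ℝ := fun y => ∑ x : V, if M.Adj x y then z x + z y else 0 with hP
    have h1 : ∀ i, c3Y G M z Kd i ≤ 1 / 2 * ∑ y : V, P y * nsum G (kf G M z Kd i) y := by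
      intro i
      have h2 : c3E G M z Kd i (fun x y _ => z x + z y) ≤
          ∑ w : V, ((lv G M z Kd i w).card : ℝ) * ∑ y : V, if G.Adj y w then P y else 0 := by
        unfold c3E
        refine sum_le_sum fun w _ => ?_
        rw [sum_const, nsmul_eq_mul]
        refine mul_le_mul_of_nonneg_left ?_ (by positivity)
        refine sum_le_sum fun y _ => ?_
        by_cases h : G.Adj y w
        · rw [if_pos h]
          refine sum_le_sum fun x _ => ?_
          have h1 := hz x
          have h2 := hz y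
          by_cases h3 : M.Adj x y
          · rw [if_pos h3]
            split_ifs
            · exact le_rfl
            · linarith
          · rw [if_neg h3, if_neg fun h' => h3 h'.1]
        · rw [if_neg h]
          refine le_of_eq (sum_eq_zero fun x _ => ?_)
          rw [if_neg fun h' => h h'.2.1]
      have h3 : (∑ w : V, ((lv G M z Kd i w).card : ℝ) *
          ∑ y : V, if G.Adj y w then P y else 0) =
          2 ^ i * ∑ y : V, P y * nsum G (kf G M z Kd i) y := by
        rw [mul_sum]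
        have h4 : ∀ w : V, ((lv G M z Kd i w).card : ℝ) *
            (∑ y : V, if G.Adj y w then P y else 0) =
            ∑ y : V, if G.Adj y w then ((lv G M z Kd i w).card : ℝ) * P y else 0 := by
          intro w
          rw [mul_sum]
          refine sum_congr rfl fun y _ => ?_
          split_ifs
          · rfl
          · simp
        rw [sum_congr rfl fun w _ => h4 w, sum_comm]
        refine sum_congr rfl fun y _ => ?_
        unfold nsum
        rw [mul_sum, mul_sum]
        refine sum_congr rfl fun w _ => ?_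
        split_ifs
        · unfold kf
          field_simp
        · simp
      rw [h3] at h2
      unfold c3Y
      rw [div_le_iff₀ (by positivity)]
      refine h2.trans (le_of_eq ?_)
      rw [pow_succ]
      ring
    have h5 : ∑ i ∈ range m, c3Y G M z Kd i ≤ 1 / 2 * ∑ y : V, P y * nsum G F y := by
      refine (sum_le_sum fun i _ => h1 i).trans (le_of_eq ?_)
      rw [← mul_sum, sum_comm]
      congr 1
      refine sum_congr rfl fun y _ => ?_
      rw [← mul_sum]
      congr 1
      unfold nsum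
      rw [sum_comm]
      refine sum_congr rfl fun w _ => ?_
      split_ifs
      · rfl
      · simp
    refine h5.trans ?_
    have h6 := c2_cs P (nsum G F)
    have h7 := c2_P_sq hM z
    have h8 : Real.sqrt ((∑ v, (P v) ^ 2) * ∑ v, (nsum G F v) ^ 2) ≤ 2 * Real.sqrt (Z2 * S2) := by
      have h9 : (∑ v, (P v) ^ 2) * ∑ v, (nsum G F v) ^ 2 ≤ 4 * (Z2 * S2) := by
        calc (∑ v, (P v) ^ 2) * ∑ v, (nsum G F v) ^ 2 ≤ (4 * Z2) * S2 :=
              mul_le_mul h7 hSF hSF0 (by linarith)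
          _ = 4 * (Z2 * S2) := by ring
      refine (Real.sqrt_le_sqrt h9).trans (le_of_eq ?_)
      rw [Real.sqrt_mul (by norm_num : (0 : ℝ) ≤ 4)]
      congr 1
      rw [show (4 : ℝ) = 2 ^ 2 by norm_num]
      exact Real.sqrt_sq (by norm_num)
    linarith
  -- the unmatched vertices
  have hZU : ∑ u ∈ unm M, z u ≤ Real.sqrt (Z2 * ((unm M).card : ℝ)) := by
    refine Real.le_sqrt_of_sq_le ?_
    refine (sq_sum_le_card_mul_sum_sq (s := unm M) (f := z)).trans ?_
    rw [mul_comm]
    refine mul_le_mul_of_nonneg_right ?_ (by positivity)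
    exact sum_le_sum_of_subset_of_nonneg (subset_univ _) fun v _ _ => sq_nonneg _
  -- the killed heads
  have hH : (∑ x ∈ univ.filter Kd, NM71.kf G M z 0 x) + ∑ i ∈ range m, c3H G M z Kd i ≤ e1 := by
    have h1 : ∑ i ∈ range m, c3H G M z Kd i ≤
        ∑ i ∈ range m, ∑ x ∈ univ.filter Kd, NM71.kf G M z (i + 1) x :=
      sum_le_sum fun i _ => c3H_le hz i
    have h2 : ∑ x ∈ univ.filter Kd, ∑ i ∈ range (m + 1), NM71.kf G M z i x =
        (∑ x ∈ univ.filter Kd, NM71.kf G M z 0 x) +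
          ∑ i ∈ range m, ∑ x ∈ univ.filter Kd, NM71.kf G M z (i + 1) x := by
      rw [sum_comm, sum_range_succ', add_comm]
    linarith
  -- the unmatched neighbours
  have hU2 : 1 / 2 * (∑ i ∈ range m, ∑ w : V, kf G M z Kd i w * u2 G M z w) ≤ e2 := by
    have h1 : ∑ i ∈ range m, ∑ w : V, kf G M z Kd i w * u2 G M z w ≤
        ∑ i ∈ range m, ∑ w : V, NM71.kf G M z i w * u2 G M z w :=
      sum_le_sum fun i _ => sum_le_sum fun w _ =>
        mul_le_mul_of_nonneg_right (n3_kf_le i w) (n3_u2_nonneg z w)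
    linarith
  obtain ⟨hs1, hs2⟩ := c3_start (G := G) (M := M) (Kd := Kd) hz
  have hk := c3_kill_sum (Kd := Kd) hc hM hz m
  have hBm := c3B_nonneg (G := G) (M := M) (Kd := Kd) hz m
  have hms := c3_mass_sum (Kd := Kd) hc hM hz m
  have hA : ((unm M).card : ℝ) - e1 - e2 - 3 * Real.sqrt (Z2 * ((unm M).card : ℝ)) -
      3 * Real.sqrt (Z2 * S2) ≤ c3A G M z Kd m := by
    linarith
  have hfin : (51 / 50 : ℝ) ^ m * c3A G M z Kd m ≤ ∑ x, gz G M z Kd m x := by
    unfold c3A
    rw [mul_sum]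
    refine sum_le_sum fun x _ => ?_
    unfold gz
    rw [sum_range_succ]
    have h1 : 0 ≤ ∑ i ∈ range m, (51 / 50 : ℝ) ^ i * kf G M z Kd i x :=
      sum_nonneg fun i _ => mul_nonneg (by positivity) (n3_kf_nonneg z Kd i x)
    linarith
  exact (mul_le_mul_of_nonneg_left hA (by positivity)).trans hfin

end NM72
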